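import Mathlib

/-!
# Orders on groups all of whose right orders are Conrad

Let `G` be an orderable group in which every right order is a Conrad right order.

* Every two-sided order on `G` is central: `[g, f] ^ n < g` for all `f`, all `g > 1` and all
  integers `n`, so all convex subgroups are normal and all convex jumps are central. In particular
  every subgroup of `G` has a central order.
* Let `Reach G` be the smallest class of groups which contains `G` and is closed under
  right-orderable homomorphic images, pointwise stabilizers of subsets of totally ordered sets on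
  which a member acts, and right-orderable directed unions. For every `H` in `Reach G` every right
  order on `H` is a Conrad right order and every two-sided order on `H` is central. The centralizer
  in `G` of any subset of `G` and all relatively convex subgroups of `G` are in `Reach G`.

The proof of centrality uses the action of `G` on itself by conjugation, which preserves every
two-sided order: if `d > 1` and `b⁻¹ d b ≥ d ^ 3` then the right order of this action at the base
point `u = d⁻¹ b d` is not a Conrad right order.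
-/

namespace Pool.Agent.Results.MP_b01f87_al.CentralOrders

universe u

/-- `lt` is a right order on `G`: a strict total order invariant under right multiplication. -/
structure IsRightOrder {G : Type u} [Group G] (lt : G → G → Prop) : Prop where
  irrefl : ∀ a, ¬ lt a a
  trans : ∀ a b c, lt a b → lt b c → lt a c
  total : ∀ a b, lt a b ∨ a = b ∨ lt b a
  mul_right : ∀ a b c, lt a b → lt (a * c) (b * c)

/-- `lt` is an order on `G`: a strict total order invariant under multiplication on both sides. -/
structure IsOrder {G : Type u} [Group G] (lt : G → G → Prop) : Prop extends IsRightOrder lt where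
  mul_left : ∀ a b c, lt a b → lt (c * a) (c * b)

/-- `lt` has the Conrad property: if `1 < f < g` then `f g ^ m f⁻¹ > g` for some positive `m`. -/
def IsConrad {G : Type u} [Group G] (lt : G → G → Prop) : Prop :=
  ∀ f g, lt 1 f → lt f g → ∃ m : ℕ, 0 < m ∧ lt g (f * g ^ m * f⁻¹)

/-- every right order on `G` is a Conrad right order -/
def AllConrad (G : Type u) [Group G] : Prop :=
  ∀ lt : G → G → Prop, IsRightOrder lt → IsConrad lt

/-- the subgroup `C` is convex: everything between two elements of `C` is in `C` -/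
def IsConvex {G : Type u} [Group G] (lt : G → G → Prop) (C : Subgroup G) : Prop :=
  ∀ a b c, a ∈ C → c ∈ C → lt a b → lt b c → b ∈ C

/-- `C < D` is a convex jump: `C` and `D` are distinct convex subgroups with `C ≤ D` and no convex
subgroup lies strictly between them. -/
structure IsJump {G : Type u} [Group G] (lt : G → G → Prop) (C D : Subgroup G) : Prop where
  convex_left : IsConvex lt C
  convex_right : IsConvex lt D
  less : C < D
  between : ∀ E : Subgroup G, IsConvex lt E → C ≤ E → E ≤ D → E = C ∨ E = D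

/-- The relation `lt` is central: `[g, f] ^ n < g` for all `f`, all `g > 1` and all integers `n`,
where `[g, f] = g⁻¹ f⁻¹ g f`; every convex subgroup is normal; and `[D, G] ≤ C` for every convex
jump `C < D`. -/
structure IsCentral {G : Type u} [Group G] (lt : G → G → Prop) : Prop where
  zpow_lt : ∀ f g : G, lt 1 g → ∀ n : ℤ, lt ((g⁻¹ * f⁻¹ * g * f) ^ n) g
  normal : ∀ C : Subgroup G, IsConvex lt C → C.Normal
  jump : ∀ C D : Subgroup G, IsJump lt C D → ⁅D, (⊤ : Subgroup G)⁆ ≤ C

/-- `A` is a right action of the group `H` on the totally ordered set `X` by order automorphisms. -/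
structure OrderAction (H : Type u) [Group H] (X : Type u) [LinearOrder X] where
  /-- the point `x` moved by `g` -/
  act : X → H → X
  act_one : ∀ x, act x 1 = x
  act_mul : ∀ x g h, act x (g * h) = act (act x g) h
  act_lt : ∀ x y g, x < y → act x g < act y g

/-- the pointwise stabilizer of the subset `S` of `X` -/
def OrderAction.fixer {H : Type u} [Group H] {X : Type u} [LinearOrder X] (A : OrderAction H X)
    (S : Set X) : Subgroup H where
  carrier := {g | ∀ s ∈ S, A.act s g = s}
  mul_mem' := by
    intro a b ha hb s hs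
    rw [A.act_mul, ha s hs, hb s hs]
  one_mem' := fun s _ => A.act_one s
  inv_mem' := by
    intro a ha s hs
    have h1 := A.act_mul s a a⁻¹
    rw [mul_inv_cancel, A.act_one, ha s hs] at h1
    exact h1.symm

/-- `Reach G` is the smallest class of groups which contains `G` and is closed under right-orderable
homomorphic images (so under isomorphisms), pointwise stabilizers of subsets of totally ordered
sets on which a member acts by order automorphisms, and right-orderable directed unions. -/
inductive Reach (G : Type u) [Group G] : (H : Type u) → [Group H] → Prop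
  | base : Reach G G
  | image (H K : Type u) [Group H] [Group K] (f : H →* K) (hf : Function.Surjective f)
      (hK : ∃ lt : K → K → Prop, IsRightOrder lt) (h : Reach G H) : Reach G K
  | stabilizer (H : Type u) [Group H] (X : Type u) [LinearOrder X] (A : OrderAction H X)
      (S : Set X) (h : Reach G H) : Reach G (A.fixer S)
  | union (H : Type u) [Group H] (ι : Type u) (T : ι → Subgroup H)
      (hdir : ∀ i j, ∃ k, T i ≤ T k ∧ T j ≤ T k) (hT : ∀ x, ∃ i, x ∈ T i)
      (hH : ∃ lt : H → H → Prop, IsRightOrder lt) (h : ∀ i, Reach G (T i)) : Reach G H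

/-! ### Linear orders from right orders -/

/-- the linear order attached to a right order -/
noncomputable abbrev lo {G : Type u} [Group G] {lt : G → G → Prop} (h : IsRightOrder lt) :
    LinearOrder G where
  le a b := ¬ lt b a
  lt a b := lt a b
  le_refl a := h.irrefl a
  le_trans a b c hab hbc hca := by
    rcases h.total a b with h1 | h1 | h1
    · exact hbc (h.trans _ _ _ hca h1)
    · subst h1
      exact hbc hca
    · exact hab h1
  lt_iff_le_not_ge a b := by
    constructor
    · intro hab
      exact ⟨fun hba => h.irrefl _ (h.trans _ _ _ hab hba), fun hn => hn hab⟩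
    · rintro ⟨_, h2⟩
      exact not_not.1 h2
  le_antisymm a b hab hba := by
    rcases h.total a b with h1 | h1 | h1
    · exact absurd h1 hba
    · exact h1
    · exact absurd h1 hab
  le_total a b := by
    rcases h.total a b with h1 | h1 | h1
    · exact Or.inl fun h2 => h.irrefl _ (h.trans _ _ _ h1 h2)
    · exact Or.inl (h1 ▸ h.irrefl _)
    · exact Or.inr fun h2 => h.irrefl _ (h.trans _ _ _ h1 h2)
  toDecidableLE := Classical.decRel _

section Ordered

variable {G : Type u} [Group G] [LinearOrder G] [MulLeftMono G] [MulRightMono G]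

/-- `y⁻¹ x y` -/
def cj (x y : G) : G := y⁻¹ * x * y

omit [LinearOrder G] [MulLeftMono G] [MulRightMono G] in
lemma cj_mul (x y z : G) : cj x (y * z) = cj (cj x y) z := by
  simp only [cj, mul_inv_rev, mul_assoc]

omit [LinearOrder G] [MulLeftMono G] [MulRightMono G] in
lemma cj_one (x : G) : cj x 1 = x := by simp [cj]

omit [LinearOrder G] [MulLeftMono G] [MulRightMono G] in
lemma cj_cj_inv (x y : G) : cj (cj x y) y⁻¹ = x := by
  rw [← cj_mul, mul_inv_cancel, cj_one]

omit [LinearOrder G] [MulLeftMono G] [MulRightMono G] in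
lemma cj_pow (x y : G) (n : ℕ) : cj x y ^ n = cj (x ^ n) y := by
  induction n with
  | zero => simp [cj]
  | succ n ih =>
    rw [pow_succ, ih, pow_succ]
    simp only [cj]
    group

lemma cj_lt {x x' : G} (h : x < x') (y : G) : cj x y < cj x' y :=
  mul_lt_mul_left (mul_lt_mul_right h _) _

lemma cj_le {x x' : G} (h : x ≤ x') (y : G) : cj x y ≤ cj x' y :=
  mul_le_mul_left (mul_le_mul_right h _) _

/-- the right order of the conjugation action at the base point `u`, ties broken by `t` -/
def baseLt (u : G) (t : G → G → Prop) (x y : G) : Prop :=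
  cj u x < cj u y ∨ (cj u x = cj u y ∧ t x y)

lemma baseLt_isRightOrder (u : G) {t : G → G → Prop} (ht : IsRightOrder t) :
    IsRightOrder (baseLt u t) where
  irrefl a h := by
    rcases h with h | h
    · exact lt_irrefl _ h
    · exact ht.irrefl _ h.2
  trans a b c hab hbc := by
    rcases hab with h1 | h1 <;> rcases hbc with h2 | h2
    · exact Or.inl (h1.trans h2)
    · exact Or.inl (h2.1 ▸ h1)
    · exact Or.inl (h1.1 ▸ h2)
    · exact Or.inr ⟨h1.1.trans h2.1, ht.trans _ _ _ h1.2 h2.2⟩
  total a b := by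
    rcases lt_trichotomy (cj u a) (cj u b) with h | h | h
    · exact Or.inl (Or.inl h)
    · rcases ht.total a b with h1 | h1 | h1
      · exact Or.inl (Or.inr ⟨h, h1⟩)
      · exact Or.inr (Or.inl h1)
      · exact Or.inr (Or.inr (Or.inr ⟨h.symm, h1⟩))
    · exact Or.inr (Or.inr (Or.inl h))
  mul_right a b c hab := by
    rcases hab with h | h
    · left
      rw [cj_mul, cj_mul]
      exact cj_lt h c
    · right
      rw [cj_mul, cj_mul, h.1]
      exact ⟨rfl, ht.mul_right _ _ _ h.2⟩

lemma isRightOrder_lt : IsRightOrder (fun a b : G => a < b) where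
  irrefl a := lt_irrefl a
  trans a b c := lt_trans
  total a b := lt_trichotomy a b
  mul_right a b c h := mul_lt_mul_left h c

lemma isRightOrder_gt : IsRightOrder (fun a b : G => b < a) where
  irrefl a := lt_irrefl a
  trans a b c h1 h2 := lt_trans h2 h1
  total a b := by
    rcases lt_trichotomy a b with h | h | h
    · exact Or.inr (Or.inr h)
    · exact Or.inr (Or.inl h)
    · exact Or.inl h
  mul_right a b c h := mul_lt_mul_left h c

/-- a non-trivial point is positive for one of the two tie-breaking orders -/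
lemma exists_tie (v : G) (hv : v ≠ 1) : ∃ t : G → G → Prop, IsRightOrder t ∧ t 1 v := by
  rcases lt_or_gt_of_ne hv with h | h
  · exact ⟨_, isRightOrder_gt, h⟩
  · exact ⟨_, isRightOrder_lt, h⟩

/-- The main step: if all right orders are Conrad, no conjugate of `d > 1` is at least `d ^ 3`. -/
lemma main_step (hC : AllConrad G) (b d : G) (hd : 1 < d) (h3 : d ^ 3 ≤ cj d b) : False := by
  -- `ε` with `ε ^ b = d`
  obtain ⟨e, he⟩ : ∃ e : G, cj e b = d := ⟨cj d b⁻¹, by
    rw [← cj_mul, inv_mul_cancel, cj_one]⟩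
  have he1 : 1 < e := by
    by_contra hcon
    have h1 := cj_le (not_lt.1 hcon) b
    rw [he] at h1
    have h2 : cj (1 : G) b = 1 := by simp [cj]
    rw [h2] at h1
    exact absurd hd (not_lt.2 h1)
  have hdd : d < d * d := by
    have := mul_lt_mul_right hd d
    rwa [mul_one] at this
  have hddd : d * d < cj d b := by
    have h1 : d * d < d ^ 3 := by
      have h2 := mul_lt_mul_right hd (d * d)
      rw [mul_one] at h2
      have h4 : d ^ 3 = d * d * d := by rw [pow_succ, pow_two]
      rw [h4]
      exact h2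
    exact h1.trans_le h3
  have hed : e < d := by
    by_contra hcon
    have h1 := cj_le (not_lt.1 hcon) b
    rw [he] at h1
    exact absurd (hdd.trans hddd) (not_lt.2 h1)
  have hb : b ≠ 1 := by
    rintro rfl
    rw [cj_one] at hddd
    exact absurd (hdd.trans hddd) (lt_irrefl _)
  -- the base point
  have hu1 : cj b d ≠ 1 := by
    intro h
    apply hb
    have h1 := congrArg (fun x => cj x d⁻¹) h
    simp only [cj_cj_inv] at h1
    rw [h1]
    simp [cj]
  obtain ⟨t, ht, ht1⟩ := exists_tie (cj b d) hu1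
  have hR := baseLt_isRightOrder (cj b d) ht
  -- the values
  have hdb : cj d b = b⁻¹ * d * b := rfl
  have heb : d = b⁻¹ * e * b := he.symm
  have hun : cj (cj b d) b⁻¹ = b * d⁻¹ * e := by
    have : cj (cj b d) b⁻¹ = e⁻¹ * b * e := by
      have h1 : b * d = e * b := by rw [heb]; group
      have h2 : d * b⁻¹ = b⁻¹ * e := by rw [heb]; group
      have h3 : b * d⁻¹ = e⁻¹ * b := by rw [heb]; group
      calc cj (cj b d) b⁻¹ = (b * d⁻¹) * b * (d * b⁻¹) := by simp only [cj]; group
        _ = (e⁻¹ * b) * b * (b⁻¹ * e) := by rw [h3, h2]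
        _ = e⁻¹ * b * e := by group
    rw [this]
    have h3 : b * d⁻¹ = e⁻¹ * b := by rw [heb]; group
    rw [h3]
  have hw : cj b (cj b d)⁻¹ = b * (cj d b)⁻¹ * d * e⁻¹ * d := by
    have h2 : b * d = e * b := by rw [heb]; group
    calc cj b (cj b d)⁻¹ = d⁻¹ * (b * d) * b * (d⁻¹ * b⁻¹) * d := by simp only [cj]; group
      _ = d⁻¹ * (b * d) * b * (b * d)⁻¹ * d := by group
      _ = d⁻¹ * (e * b) * b * (e * b)⁻¹ * d := by rw [h2]
      _ = d⁻¹ * e * b * e⁻¹ * d := by group
      _ = b * (cj d b)⁻¹ * d * e⁻¹ * d := by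
        have h4 : b * (b⁻¹ * d * b)⁻¹ * d = d⁻¹ * (b * d) := by group
        rw [hdb, h4, h2]
        group
  have hu0 : cj b d = b * (cj d b)⁻¹ * d := by simp only [cj]; group
  -- `u < w · h₂ < u · h₁ < w`
  have hA : cj b d < cj b (cj b d)⁻¹ := by
    rw [hw, hu0]
    have h1 : 1 < e⁻¹ * d := by
      have := mul_lt_mul_right hed e⁻¹
      rwa [inv_mul_cancel] at this
    have h2 := mul_lt_mul_right h1 (b * (cj d b)⁻¹ * d)
    rw [mul_one, ← mul_assoc] at h2
    exact h2
  have hB : cj b (cj b d)⁻¹ < cj (cj b d) b⁻¹ := by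
    rw [hw, hun]
    have h1 : d * e⁻¹ * d < d * d := by
      have h2 : e⁻¹ < 1 := by
        have := mul_lt_mul_right he1 e⁻¹
        rwa [mul_one, inv_mul_cancel] at this
      have h3 := mul_lt_mul_left (mul_lt_mul_right h2 d) d
      rwa [mul_one] at h3
    have h2 : d * d < cj d b * d⁻¹ * e := by
      have h5 : d * d * e ≤ cj d b * d⁻¹ * e := by
        have h6 := mul_le_mul_left (mul_le_mul_left h3 d⁻¹) e
        have h7 : d ^ 3 * d⁻¹ * e = d * d * e := by rw [pow_succ, mul_inv_cancel_right, pow_two]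
        rwa [h7] at h6
      have h8 := mul_lt_mul_right he1 (d * d)
      rw [mul_one] at h8
      exact h8.trans_le h5
    have h4 := mul_lt_mul_right (h1.trans h2) (b * (cj d b)⁻¹)
    have h9 : b * (cj d b)⁻¹ * (d * e⁻¹ * d) = b * (cj d b)⁻¹ * d * e⁻¹ * d := by group
    have h10 : b * (cj d b)⁻¹ * (cj d b * d⁻¹ * e) = b * d⁻¹ * e := by group
    rwa [h9, h10] at h4
  have hC1 : cj (cj b d) b⁻¹ < b := by
    rw [hun]
    have h1 : d⁻¹ * e < 1 := by
      have := mul_lt_mul_right hed d⁻¹
      rwa [inv_mul_cancel] at this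
    have h2 := mul_lt_mul_right h1 b
    rwa [mul_one, ← mul_assoc] at h2
  -- apply the Conrad property
  have hfix : cj (cj b d) (cj b d) = cj b d := by simp only [cj]; group
  have hf : baseLt (cj b d) t 1 (cj b d) := by
    right
    rw [cj_one, hfix]
    exact ⟨rfl, ht1⟩
  have hfg : baseLt (cj b d) t (cj b d) b⁻¹ := by
    left
    rw [hfix]
    exact hA.trans hB
  obtain ⟨m, -, hm⟩ := hC _ hR (cj b d) b⁻¹ hf hfg
  -- `u · h₁ ^ m < w`
  have hpow : ∀ m : ℕ, cj (cj b d) (b⁻¹ ^ m) < b := by
    intro m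
    induction m with
    | zero =>
      rw [pow_zero, cj_one]
      exact (hA.trans hB).trans hC1
    | succ m ih =>
      rw [pow_succ, cj_mul]
      have h1 := cj_lt ih b⁻¹
      have h2 : cj b b⁻¹ = b := by simp [cj]
      rwa [h2] at h1
  have hlt : cj (cj b d) (cj b d * b⁻¹ ^ m * (cj b d)⁻¹) < cj (cj b d) b⁻¹ := by
    rw [cj_mul, cj_mul, hfix]
    exact (cj_lt (hpow m) _).trans hB
  rcases hm with h | h
  · exact absurd hlt (lt_asymm h)
  · exact absurd h.1 (ne_of_gt hlt)

/-- `(g c) ^ n` is at least `g ^ n c ^ n` or at least `c ^ n g ^ n` -/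
lemma mul_pow_ge (g c : G) (n : ℕ) : g ^ n * c ^ n ≤ (g * c) ^ n ∨ c ^ n * g ^ n ≤ (g * c) ^ n := by
  rcases le_total (g * c) (c * g) with h | h
  · left
    have h1 : ∀ m : ℕ, g * c ^ m ≤ c ^ m * g := by
      intro m
      induction m with
      | zero => simp
      | succ m ih =>
        calc g * c ^ (m + 1) = g * c ^ m * c := by rw [pow_succ, mul_assoc]
          _ ≤ c ^ m * g * c := mul_le_mul_left ih c
          _ = c ^ m * (g * c) := by rw [mul_assoc]
          _ ≤ c ^ m * (c * g) := mul_le_mul_right h _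
          _ = c ^ (m + 1) * g := by rw [pow_succ, mul_assoc]
    induction n with
    | zero => simp
    | succ n ih =>
      calc g ^ (n + 1) * c ^ (n + 1) = g ^ n * (g * c ^ n) * c := by
            rw [pow_succ, pow_succ]; simp only [mul_assoc]
        _ ≤ g ^ n * (c ^ n * g) * c := mul_le_mul_left (mul_le_mul_right (h1 n) _) _
        _ = g ^ n * c ^ n * (g * c) := by simp only [mul_assoc]
        _ ≤ (g * c) ^ n * (g * c) := mul_le_mul_left ih _
        _ = (g * c) ^ (n + 1) := by rw [pow_succ]
  · right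
    have h1 : ∀ m : ℕ, c ^ m * g ≤ g * c ^ m := by
      intro m
      induction m with
      | zero => simp
      | succ m ih =>
        calc c ^ (m + 1) * g = c ^ m * (c * g) := by rw [pow_succ, mul_assoc]
          _ ≤ c ^ m * (g * c) := mul_le_mul_right h _
          _ = c ^ m * g * c := by rw [mul_assoc]
          _ ≤ g * c ^ m * c := mul_le_mul_left ih c
          _ = g * c ^ (m + 1) := by rw [pow_succ, mul_assoc]
    induction n with
    | zero => simp
    | succ n ih =>
      calc c ^ (n + 1) * g ^ (n + 1) = c ^ (n + 1) * g * g ^ n := by rw [pow_succ' g, mul_assoc]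
        _ ≤ g * c ^ (n + 1) * g ^ n := mul_le_mul_left (h1 (n + 1)) _
        _ = g * c * (c ^ n * g ^ n) := by rw [pow_succ' c]; simp only [mul_assoc]
        _ ≤ g * c * (g * c) ^ n := mul_le_mul_right ih _
        _ = (g * c) ^ (n + 1) := by rw [pow_succ']

/-- the case of a positive commutator -/
lemma pow_lt_of_one_lt (hC : AllConrad G) (f g : G) (hg : 1 < g) (n : ℕ) :
    (g⁻¹ * f⁻¹ * g * f) ^ n < g := by
  by_contra hcon
  rw [not_lt] at hcon
  obtain ⟨c, hc⟩ : ∃ c : G, c = g⁻¹ * f⁻¹ * g * f := ⟨_, rfl⟩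
  rw [← hc] at hcon
  have hn : 0 < n := by
    rcases Nat.eq_zero_or_pos n with h | h
    · rw [h, pow_zero] at hcon
      exact absurd hg (not_lt.2 hcon)
    · exact h
  have hgc : cj g f = g * c := by rw [hc]; simp only [cj]; group
  -- `(g ^ n) ^ f ≥ g ^ (n + 1)`
  have h1 : g ^ (n + 1) ≤ cj (g ^ n) f := by
    rw [← cj_pow, hgc]
    rcases mul_pow_ge g c n with h | h
    · calc g ^ (n + 1) = g ^ n * g := pow_succ _ _
        _ ≤ g ^ n * c ^ n := mul_le_mul_right hcon _
        _ ≤ _ := h
    · calc g ^ (n + 1) = g * g ^ n := pow_succ' _ _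
        _ ≤ c ^ n * g ^ n := mul_le_mul_left hcon _
        _ ≤ _ := h
  have h2 : ∀ k : ℕ, g ^ (n + 1) ^ k ≤ cj (g ^ n ^ k) (f ^ k) := by
    intro k
    induction k with
    | zero => simp [cj]
    | succ k ih =>
      calc g ^ (n + 1) ^ (k + 1) = (g ^ (n + 1)) ^ (n + 1) ^ k := by
            rw [← pow_mul, pow_succ' (n + 1)]
        _ ≤ (cj (g ^ n) f) ^ (n + 1) ^ k := pow_le_pow_left' h1 _
        _ = cj ((g ^ (n + 1) ^ k) ^ n) f := by
            rw [cj_pow, ← pow_mul, ← pow_mul, mul_comm n]
        _ ≤ cj ((cj (g ^ n ^ k) (f ^ k)) ^ n) f := cj_le (pow_le_pow_left' ih n) f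
        _ = cj (g ^ n ^ (k + 1)) (f ^ (k + 1)) := by
            rw [cj_pow, ← pow_mul, ← cj_mul, ← pow_succ, ← pow_succ]
  have h3 : 3 * n ^ (2 * n) ≤ (n + 1) ^ (2 * n) := by
    have hnq : (0 : ℚ) < n := by exact_mod_cast hn
    have h4 : (1 : ℚ) + ((2 * n : ℕ) : ℚ) * (1 / n) ≤ (1 + 1 / n) ^ (2 * n) :=
      one_add_mul_le_pow (by have := one_div_pos.2 hnq; linarith) _
    have h5 : (1 : ℚ) + ((2 * n : ℕ) : ℚ) * (1 / n) = 3 := by
      push_cast
      field_simp
      norm_num
    rw [h5] at h4
    have h6 : (3 : ℚ) * n ^ (2 * n) ≤ (n + 1) ^ (2 * n) := by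
      calc (3 : ℚ) * n ^ (2 * n) ≤ (1 + 1 / n) ^ (2 * n) * n ^ (2 * n) :=
            mul_le_mul_of_nonneg_right h4 (by positivity)
        _ = ((1 + 1 / n) * n) ^ (2 * n) := by rw [mul_pow]
        _ = (n + 1) ^ (2 * n) := by
            have : (1 + 1 / (n : ℚ)) * n = n + 1 := by field_simp
            rw [this]
    exact_mod_cast h6
  have hd : 1 < g ^ n ^ (2 * n) := one_lt_pow' hg (by positivity)
  refine main_step hC (f ^ (2 * n)) (g ^ n ^ (2 * n)) hd ?_
  calc (g ^ n ^ (2 * n)) ^ 3 = g ^ (3 * n ^ (2 * n)) := by rw [← pow_mul, mul_comm]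
    _ ≤ g ^ (n + 1) ^ (2 * n) := pow_le_pow_right' hg.le h3
    _ ≤ _ := h2 _

lemma zpow_lt_of_one_lt (hC : AllConrad G) (f g : G) (hg : 1 < g) (n : ℤ) :
    (g⁻¹ * f⁻¹ * g * f) ^ n < g := by
  obtain ⟨m, rfl | rfl⟩ := n.eq_nat_or_neg
  · rw [zpow_natCast]
    exact pow_lt_of_one_lt hC f g hg m
  · -- use the pair `g ^ f`, `f⁻¹`
    rw [zpow_neg, zpow_natCast]
    obtain ⟨c, hc⟩ : ∃ c : G, c = g⁻¹ * f⁻¹ * g * f := ⟨_, rfl⟩
    rw [← hc, ← inv_pow]
    have hgc : cj g f = g * c := by rw [hc]; simp only [cj]; group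
    have h1 : 1 < cj g f := by
      have := cj_lt hg f
      rwa [show cj (1 : G) f = 1 from by simp [cj]] at this
    have h2 := pow_lt_of_one_lt hC f⁻¹ (cj g f) h1 m
    have h3 : (cj g f)⁻¹ * f⁻¹⁻¹ * cj g f * f⁻¹ = c⁻¹ := by
      rw [hc]; simp only [cj]; group
    rw [h3] at h2
    -- if `c ≥ 1` the claim is clear, otherwise `g ^ f = g c < g`
    rcases le_or_gt 1 c with h | h
    · have h4 : c⁻¹ ≤ 1 := by
        have := mul_le_mul_right h c⁻¹
        rwa [mul_one, inv_mul_cancel] at this
      exact (pow_le_one' h4 m).trans_lt hg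
    · have h4 : cj g f < g := by
        rw [hgc]
        have := mul_lt_mul_right h g
        rwa [mul_one] at this
      exact h2.trans h4

end Ordered

/-! ### Consequences of the elementwise condition -/

lemma mulLeftMono {G : Type u} [Group G] {lt : G → G → Prop} (h : IsOrder lt) :
    @MulLeftMono G _ (lo h.toIsRightOrder).toLE := by
  letI := lo h.toIsRightOrder
  refine ⟨fun a b c hbc => ?_⟩
  intro h1
  apply hbc
  have h2 := h.mul_left _ _ a⁻¹ h1
  simpa using h2

lemma mulRightMono {G : Type u} [Group G] {lt : G → G → Prop} (h : IsOrder lt) :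
    @MulRightMono G _ (lo h.toIsRightOrder).toLE := by
  letI := lo h.toIsRightOrder
  refine ⟨fun a b c hbc => ?_⟩
  intro h1
  apply hbc
  have h2 := h.mul_right _ _ a⁻¹ h1
  simpa using h2

/-- the elementwise condition implies that the order is central -/
lemma isCentral_of_zpow {G : Type u} [Group G] {lt : G → G → Prop} (h : IsOrder lt)
    (hz : ∀ f g : G, lt 1 g → ∀ n : ℤ, lt ((g⁻¹ * f⁻¹ * g * f) ^ n) g) : IsCentral lt := by
  letI := lo h.toIsRightOrder
  haveI := mulLeftMono h
  haveI := mulRightMono h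
  have hz' : ∀ f g : G, 1 < g → ∀ n : ℤ, (g⁻¹ * f⁻¹ * g * f) ^ n < g := hz
  -- commutators of elements of a convex subgroup are in it
  have key : ∀ C : Subgroup G, IsConvex lt C → ∀ f g : G, g ∈ C → g⁻¹ * f⁻¹ * g * f ∈ C := by
    intro C hC
    have hC' : ∀ a b c : G, a ∈ C → c ∈ C → a < b → b < c → b ∈ C := hC
    have hpos : ∀ f g : G, g ∈ C → 1 < g → g⁻¹ * f⁻¹ * g * f ∈ C := by
      intro f g hg h1
      have h2 := hz' f g h1 1
      rw [zpow_one] at h2
      have h3 := hz' f g h1 (-1)
      rw [zpow_neg, zpow_one] at h3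
      have h4 : g⁻¹ < g⁻¹ * f⁻¹ * g * f := by
        have h5 := mul_lt_mul_left (mul_lt_mul_right h3 g⁻¹) (g⁻¹ * f⁻¹ * g * f)
        rwa [mul_assoc, inv_mul_cancel, mul_one, inv_mul_cancel, one_mul] at h5
      exact hC' _ _ _ (C.inv_mem hg) hg h4 h2
    intro f g hg
    rcases lt_trichotomy 1 g with h1 | h1 | h1
    · exact hpos f g hg h1
    · have h2 : g⁻¹ * f⁻¹ * g * f = 1 := by rw [← h1]; simp
      rw [h2]
      exact C.one_mem
    · have h2 : 1 < g⁻¹ := by
        have := mul_lt_mul_right h1 g⁻¹
        rwa [mul_one, inv_mul_cancel] at this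
      have h3 := hpos f g⁻¹ (C.inv_mem hg) h2
      have h4 : g⁻¹ * f⁻¹ * g * f = g⁻¹ * (g⁻¹⁻¹ * f⁻¹ * g⁻¹ * f)⁻¹ * g := by group
      rw [h4]
      exact C.mul_mem (C.mul_mem (C.inv_mem hg) (C.inv_mem h3)) hg
  have hnormal : ∀ C : Subgroup G, IsConvex lt C → C.Normal := by
    intro C hC
    refine ⟨fun g hg f => ?_⟩
    have h1 := C.mul_mem hg (key C hC f⁻¹ g hg)
    have h2 : g * (g⁻¹ * f⁻¹⁻¹ * g * f⁻¹) = f * g * f⁻¹ := by group
    rwa [h2] at h1
  refine ⟨hz, hnormal, ?_⟩
  · intro C D hj
    -- elements infinitesimally smaller than `g`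
    have hbig : ∀ g : G, g ∈ D → g ∉ C → 1 < g → ∀ f : G, g⁻¹ * f⁻¹ * g * f ∈ C := by
      intro g hgD hgC hg1 f
      have hinv : ∀ y : G, y⁻¹ < 1 ↔ 1 < y := by
        intro y
        constructor
        · intro h1
          have := mul_lt_mul_right h1 y
          rwa [mul_one, mul_inv_cancel] at this
        · intro h1
          have := mul_lt_mul_right h1 y⁻¹
          rwa [mul_one, inv_mul_cancel] at this
      -- the powers of a product are bounded
      have hmul : ∀ y z : G, (∀ n : ℤ, y ^ n < g) → (∀ n : ℤ, z ^ n < g) →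
          ∀ n : ℕ, (y * z) ^ n < g := by
        intro y z hy hz1 n
        rcases le_total y z with h1 | h1
        · have h2 : (y * z) ^ n ≤ (z * z) ^ n := pow_le_pow_left' (mul_le_mul_left h1 z) n
          have h3 : (z * z) ^ n = z ^ ((2 * n : ℕ) : ℤ) := by
            rw [← pow_two, ← pow_mul, zpow_natCast]
          exact (h2.trans_eq h3).trans_lt (hz1 _)
        · have h2 : (y * z) ^ n ≤ (y * y) ^ n := pow_le_pow_left' (mul_le_mul_right h1 y) n
          have h3 : (y * y) ^ n = y ^ ((2 * n : ℕ) : ℤ) := by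
            rw [← pow_two, ← pow_mul, zpow_natCast]
          exact (h2.trans_eq h3).trans_lt (hy _)
      have hmul' : ∀ y z : G, (∀ n : ℤ, y ^ n < g) → (∀ n : ℤ, z ^ n < g) →
          ∀ n : ℤ, (y * z) ^ n < g := by
        intro y z hy hz1 n
        obtain ⟨m, rfl | rfl⟩ := n.eq_nat_or_neg
        · rw [zpow_natCast]
          exact hmul y z hy hz1 m
        · rw [zpow_neg, zpow_natCast, ← inv_pow, mul_inv_rev]
          refine hmul z⁻¹ y⁻¹ ?_ ?_ m
          · intro n
            rw [inv_zpow']
            exact hz1 _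
          · intro n
            rw [inv_zpow']
            exact hy _
      let E : Subgroup G :=
        { carrier := {y | ∀ n : ℤ, y ^ n < g}
          mul_mem' := fun {y z} hy hz1 => hmul' y z hy hz1
          one_mem' := by
            intro n
            rw [one_zpow]
            exact hg1
          inv_mem' := by
            intro y hy n
            rw [inv_zpow']
            exact hy _ }
      have hEmem : ∀ y : G, y ∈ E ↔ ∀ n : ℤ, y ^ n < g := fun y => Iff.rfl
      have hEconv : IsConvex lt E := by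
        intro a b c ha hc hab hbc
        have hab' : a < b := hab
        have hbc' : b < c := hbc
        rw [hEmem]
        intro n
        obtain ⟨m, rfl | rfl⟩ := n.eq_nat_or_neg
        · rw [zpow_natCast]
          have h1 := (hEmem c).1 hc m
          rw [zpow_natCast] at h1
          exact (pow_le_pow_left' hbc'.le m).trans_lt h1
        · rw [zpow_neg, zpow_natCast, ← inv_pow]
          have h1 := (hEmem a).1 ha (-m)
          rw [zpow_neg, zpow_natCast, ← inv_pow] at h1
          have h2 : b⁻¹ ≤ a⁻¹ := by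
            have h3 := mul_lt_mul_left (mul_lt_mul_right hab' a⁻¹) b⁻¹
            rw [inv_mul_cancel, one_mul, mul_assoc, mul_inv_cancel, mul_one] at h3
            exact h3.le
          exact (pow_le_pow_left' h2 m).trans_lt h1
      have hgE : g ∉ E := by
        intro h1
        have h2 := (hEmem g).1 h1 1
        rw [zpow_one] at h2
        exact lt_irrefl _ h2
      have hCE : C ≤ E := by
        intro y hy
        rw [hEmem]
        intro n
        by_contra hcon
        rw [not_lt] at hcon
        apply hgC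
        rcases hcon.lt_or_eq with h1 | h1
        · exact hj.convex_left 1 g (y ^ n) C.one_mem (C.zpow_mem hy n) hg1 h1
        · rw [h1]
          exact C.zpow_mem hy n
      have hED : E ≤ D := by
        intro y hy
        have h1 := (hEmem y).1 hy 1
        have h2 := (hEmem y).1 hy (-1)
        rw [zpow_one] at h1
        rw [zpow_neg, zpow_one] at h2
        have h3 : g⁻¹ < y := by
          have h5 := mul_lt_mul_left (mul_lt_mul_right h2 g⁻¹) y
          rwa [mul_assoc, inv_mul_cancel, mul_one, inv_mul_cancel, one_mul] at h5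
        exact hj.convex_right _ _ _ (D.inv_mem hgD) hgD h3 h1
      have hE : E = C := by
        rcases hj.between E hEconv hCE hED with h1 | h1
        · exact h1
        · exact absurd (h1 ▸ hgD) hgE
      rw [← hE, hEmem]
      exact hz' f g hg1
    have hall : ∀ g : G, g ∈ D → ∀ f : G, g⁻¹ * f⁻¹ * g * f ∈ C := by
      intro g hgD f
      by_cases hgC : g ∈ C
      · exact key C hj.convex_left f g hgC
      · rcases lt_trichotomy 1 g with h1 | h1 | h1
        · exact hbig g hgD hgC h1 f
        · exact absurd (h1 ▸ C.one_mem) hgC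
        · have h2 : 1 < g⁻¹ := by
            have := mul_lt_mul_right h1 g⁻¹
            rwa [mul_one, inv_mul_cancel] at this
          -- `[g, f] = g⁻¹ [g⁻¹, f]⁻¹ g`
          have h3 := hbig g⁻¹ (D.inv_mem hgD) (fun h => hgC (by simpa using C.inv_mem h)) h2 f
          have h5 : g⁻¹ * f⁻¹ * g * f = g⁻¹ * (g⁻¹⁻¹ * f⁻¹ * g⁻¹ * f)⁻¹ * g⁻¹⁻¹ := by group
          rw [h5]
          exact (hnormal C hj.convex_left).conj_mem _ (C.inv_mem h3) _
    rw [Subgroup.commutator_le]
    intro g hg f _
    have h1 := hall g⁻¹ (D.inv_mem hg) f⁻¹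
    simpa [commutatorElement_def] using h1

/-- orders on groups all of whose right orders are Conrad are central -/
lemma isCentral {G : Type u} [Group G] (hC : AllConrad G) {lt : G → G → Prop} (h : IsOrder lt) :
    IsCentral lt := by
  refine isCentral_of_zpow h fun f g hg n => ?_
  letI := lo h.toIsRightOrder
  haveI := mulLeftMono h
  haveI := mulRightMono h
  exact zpow_lt_of_one_lt hC f g hg n

/-! ### The class `Reach` -/

/-- a right order restricts to subgroups -/
lemma restrict {H : Type u} [Group H] {r : H → H → Prop} (h : IsRightOrder r) (K : Subgroup H) :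
    IsRightOrder (fun a b : K => r (a : H) (b : H)) where
  irrefl a := h.irrefl _
  trans a b c := h.trans _ _ _
  total a b := by
    rcases h.total (a : H) b with h1 | h1 | h1
    · exact Or.inl h1
    · exact Or.inr (Or.inl (Subtype.ext h1))
    · exact Or.inr (Or.inr h1)
  mul_right a b c hab := h.mul_right _ _ _ hab

/-- right-orderable images -/
lemma image_allConrad {H K : Type u} [Group H] [Group K] (hC : AllConrad H)
    (hH : ∃ lt : H → H → Prop, IsRightOrder lt) (φ : H →* K) (hφ : Function.Surjective φ) :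
    AllConrad K := by
  obtain ⟨s, hs⟩ := hH
  intro r hr
  let R : H → H → Prop := fun x y => r (φ x) (φ y) ∨ (φ x = φ y ∧ s x y)
  have hR : IsRightOrder R := by
    refine ⟨?_, ?_, ?_, ?_⟩
    · rintro a (h | h)
      · exact hr.irrefl _ h
      · exact hs.irrefl _ h.2
    · rintro a b c (h1 | h1) (h2 | h2)
      · exact Or.inl (hr.trans _ _ _ h1 h2)
      · exact Or.inl (h2.1 ▸ h1)
      · exact Or.inl (h1.1.symm ▸ h2)
      · exact Or.inr ⟨h1.1.trans h2.1, hs.trans _ _ _ h1.2 h2.2⟩
    · intro a b
      rcases hr.total (φ a) (φ b) with h | h | h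
      · exact Or.inl (Or.inl h)
      · rcases hs.total a b with h1 | h1 | h1
        · exact Or.inl (Or.inr ⟨h, h1⟩)
        · exact Or.inr (Or.inl h1)
        · exact Or.inr (Or.inr (Or.inr ⟨h.symm, h1⟩))
      · exact Or.inr (Or.inr (Or.inl h))
    · rintro a b c (h | h)
      · left
        rw [map_mul, map_mul]
        exact hr.mul_right _ _ _ h
      · right
        rw [map_mul, map_mul, h.1]
        exact ⟨rfl, hs.mul_right _ _ _ h.2⟩
  intro f g hf hfg
  obtain ⟨x, rfl⟩ := hφ f
  obtain ⟨y, rfl⟩ := hφ g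
  have h1 : R 1 x := by
    left
    rw [map_one]
    exact hf
  obtain ⟨m, hm, h2⟩ := hC R hR x y h1 (Or.inl hfg)
  rcases h2 with h2 | h2
  · refine ⟨m, hm, ?_⟩
    rw [map_mul, map_mul, map_pow, map_inv] at h2
    exact h2
  · refine ⟨2 * m, by omega, ?_⟩
    have h3 := h2.1
    rw [map_mul, map_mul, map_pow, map_inv] at h3
    have h4 : φ x * φ y ^ (2 * m) * (φ x)⁻¹ = φ y * φ y := by
      calc φ x * φ y ^ (2 * m) * (φ x)⁻¹
          = (φ x * φ y ^ m * (φ x)⁻¹) * (φ x * φ y ^ m * (φ x)⁻¹) := by
            rw [two_mul, pow_add]; group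
        _ = φ y * φ y := by rw [← h3]
    rw [h4]
    have h5 := hr.mul_right _ _ (φ y) (hr.trans _ _ _ hf hfg)
    rwa [one_mul] at h5

/-- pointwise stabilizers -/
lemma fixer_allConrad {G : Type u} [Group G] (hC : AllConrad G) {X : Type u} [LinearOrder X]
    (A : OrderAction G X) (S : Set X) : AllConrad (A.fixer S) := by
  intro r hr
  have hinj : ∀ (x y : X) (g : G), A.act x g = A.act y g → x = y := by
    intro x y g h1
    have h2 := congrArg (fun z => A.act z g⁻¹) h1
    simpa only [← A.act_mul, mul_inv_cancel, A.act_one] using h2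
  -- same coset of the stabilizer
  have hmem : ∀ x y : G, y * x⁻¹ ∈ A.fixer S ↔ ∀ s ∈ S, A.act s x = A.act s y := by
    intro x y
    have h0 : y * x⁻¹ ∈ A.fixer S ↔ ∀ s ∈ S, A.act s (y * x⁻¹) = s := Iff.rfl
    rw [h0]
    refine forall₂_congr fun s _ => ?_
    constructor
    · intro h1
      have h2 := A.act_mul s (y * x⁻¹) x
      rw [inv_mul_cancel_right, h1] at h2
      exact h2.symm
    · intro h1
      apply hinj _ _ x
      rw [← A.act_mul, inv_mul_cancel_right]
      exact h1.symm
  let R : G → G → Prop := fun x y =>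
    (∃ s ∈ S, A.act s x < A.act s y ∧ ∀ t ∈ S, WellOrderingRel t s → A.act t x = A.act t y) ∨
      ∃ hxy : y * x⁻¹ ∈ A.fixer S, r 1 ⟨y * x⁻¹, hxy⟩
  have hR : IsRightOrder R := by
    refine ⟨?_, ?_, ?_, ?_⟩
    · rintro a (⟨s, _, h1, _⟩ | ⟨hxy, h1⟩)
      · exact lt_irrefl _ h1
      · have h2 : (⟨a * a⁻¹, hxy⟩ : A.fixer S) = 1 :=
          Subtype.ext (mul_inv_cancel a)
        rw [h2] at h1
        exact hr.irrefl _ h1
    · rintro a b c (⟨s, hs, h1, h2⟩ | ⟨hxy, h1⟩) (⟨s', hs', h1', h2'⟩ | ⟨hyz, h1'⟩)
      · left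
        rcases trichotomous_of (WellOrderingRel : X → X → Prop) s s' with h3 | h3 | h3
        · exact ⟨s, hs, h2' s hs h3 ▸ h1, fun t ht h4 =>
            (h2 t ht h4).trans (h2' t ht (_root_.trans h4 h3))⟩
        · subst h3
          exact ⟨s, hs, h1.trans h1', fun t ht h4 => (h2 t ht h4).trans (h2' t ht h4)⟩
        · exact ⟨s', hs', (h2 s' hs' h3) ▸ h1', fun t ht h4 =>
            (h2 t ht (_root_.trans h4 h3)).trans (h2' t ht h4)⟩
      · left
        have h3 := (hmem _ _).1 hyz
        exact ⟨s, hs, (h3 s hs) ▸ h1, fun t ht h4 => (h2 t ht h4).trans (h3 t ht)⟩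
      · left
        have h3 := (hmem _ _).1 hxy
        exact ⟨s', hs', (h3 s' hs') ▸ h1', fun t ht h4 => (h3 t ht).trans (h2' t ht h4)⟩
      · right
        have h3 : c * a⁻¹ = (c * b⁻¹) * (b * a⁻¹) := by group
        have h4 : c * a⁻¹ ∈ A.fixer S := by
          rw [h3]
          exact Subgroup.mul_mem _ hyz hxy
        refine ⟨h4, ?_⟩
        have h5 := hr.mul_right _ _ ⟨b * a⁻¹, hxy⟩ h1'
        rw [one_mul] at h5
        have h6 : (⟨c * a⁻¹, h4⟩ : A.fixer S) =
            ⟨c * b⁻¹, hyz⟩ * ⟨b * a⁻¹, hxy⟩ := Subtype.ext h3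
        rw [h6]
        exact hr.trans _ _ _ h1 h5
    · intro a b
      by_cases hab : b * a⁻¹ ∈ A.fixer S
      · rcases hr.total 1 ⟨b * a⁻¹, hab⟩ with h1 | h1 | h1
        · exact Or.inl (Or.inr ⟨hab, h1⟩)
        · right; left
          have h2 := congrArg Subtype.val h1
          have h3 : (1 : G) = b * a⁻¹ := h2
          exact (mul_inv_eq_one.1 h3.symm).symm
        · right; right; right
          have h3 : a * b⁻¹ = (b * a⁻¹)⁻¹ := by group
          have h4 : a * b⁻¹ ∈ A.fixer S := by
            rw [h3]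
            exact Subgroup.inv_mem _ hab
          refine ⟨h4, ?_⟩
          have h5 := hr.mul_right _ _ ⟨a * b⁻¹, h4⟩ h1
          rw [one_mul] at h5
          have h6 : (⟨b * a⁻¹, hab⟩ : A.fixer S) * ⟨a * b⁻¹, h4⟩ = 1 :=
            Subtype.ext (by simp [mul_assoc])
          rwa [h6] at h5
      · -- the first point of `S` with different images
        have h1 : ({s | s ∈ S ∧ A.act s a ≠ A.act s b} : Set X).Nonempty := by
          by_contra hcon
          apply hab
          rw [hmem]
          intro s hs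
          by_contra h2
          exact hcon ⟨s, hs, h2⟩
        have hwf : WellFounded (WellOrderingRel : X → X → Prop) :=
          WellOrderingRel.isWellOrder.wf
        obtain ⟨s, ⟨hs, hne⟩, hmin⟩ := hwf.has_min _ h1
        have hmin' : ∀ t ∈ S, WellOrderingRel t s → A.act t a = A.act t b := by
          intro t ht hts
          by_contra h2
          exact hmin t ⟨ht, h2⟩ hts
        rcases lt_or_gt_of_ne hne with h2 | h2
        · exact Or.inl (Or.inl ⟨s, hs, h2, hmin'⟩)
        · exact Or.inr (Or.inr (Or.inl ⟨s, hs, h2, fun t ht hts => (hmin' t ht hts).symm⟩))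
    · rintro a b c (⟨s, hs, h1, h2⟩ | ⟨hxy, h1⟩)
      · left
        refine ⟨s, hs, ?_, fun t ht hts => ?_⟩
        · rw [A.act_mul, A.act_mul]
          exact A.act_lt _ _ c h1
        · rw [A.act_mul, A.act_mul, h2 t ht hts]
      · right
        have h3 : (b * c) * (a * c)⁻¹ = b * a⁻¹ := by group
        have h4 : (b * c) * (a * c)⁻¹ ∈ A.fixer S := by
          rw [h3]
          exact hxy
        refine ⟨h4, ?_⟩
        have h5 : (⟨(b * c) * (a * c)⁻¹, h4⟩ : A.fixer S) = ⟨b * a⁻¹, hxy⟩ :=
          Subtype.ext h3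
        rw [h5]
        exact h1
  intro f g hf hfg
  have h1 : R 1 (f : G) := by
    right
    have h2 : (f : G) * (1 : G)⁻¹ = f := by group
    have h3 : (f : G) * (1 : G)⁻¹ ∈ A.fixer S := by
      rw [h2]
      exact f.2
    refine ⟨h3, ?_⟩
    have h4 : (⟨(f : G) * (1 : G)⁻¹, h3⟩ : A.fixer S) = f := Subtype.ext h2
    rw [h4]
    exact hf
  have h2 : R (f : G) (g : G) := by
    right
    refine ⟨Subgroup.mul_mem _ g.2 (Subgroup.inv_mem _ f.2), ?_⟩
    have h3 := hr.mul_right _ _ f⁻¹ hfg
    rw [mul_inv_cancel] at h3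
    exact h3
  obtain ⟨m, hm, h3⟩ := hC R hR f g h1 h2
  refine ⟨m, hm, ?_⟩
  have hmem' : (f : G) * (g : G) ^ m * (f : G)⁻¹ * (g : G)⁻¹ ∈ A.fixer S :=
    (f * g ^ m * f⁻¹ * g⁻¹).2
  rcases h3 with ⟨s, hs, h4, _⟩ | ⟨hxy, h4⟩
  · exact absurd ((hmem _ _).1 hmem' s hs) (ne_of_lt h4)
  · have h5 := hr.mul_right _ _ g h4
    rw [one_mul] at h5
    have h6 : (⟨(f : G) * (g : G) ^ m * (f : G)⁻¹ * (g : G)⁻¹, hxy⟩ :
        A.fixer S) * g = f * g ^ m * f⁻¹ := by
      apply Subtype.ext
      simp
    rwa [h6] at h5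

/-- directed unions -/
lemma union_allConrad {H : Type u} [Group H] {ι : Type u} (T : ι → Subgroup H)
    (hdir : ∀ i j, ∃ k, T i ≤ T k ∧ T j ≤ T k) (hT : ∀ x, ∃ i, x ∈ T i)
    (h : ∀ i, AllConrad (T i)) : AllConrad H := by
  intro r hr f g hf hfg
  obtain ⟨i, hi⟩ := hT f
  obtain ⟨j, hj⟩ := hT g
  obtain ⟨k, hik, hjk⟩ := hdir i j
  obtain ⟨m, hm, h1⟩ := h k _ (restrict hr (T k)) ⟨f, hik hi⟩ ⟨g, hjk hj⟩ hf hfg
  exact ⟨m, hm, h1⟩

lemma reach_allConrad {G : Type u} [Group G] (hG : ∃ lt : G → G → Prop, IsRightOrder lt)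
    (hC : AllConrad G) {H : Type u} [Group H] (h : Reach G H) :
    (∃ lt : H → H → Prop, IsRightOrder lt) ∧ AllConrad H := by
  induction h with
  | base => exact ⟨hG, hC⟩
  | image H K f hf hK _ ih => exact ⟨hK, image_allConrad ih.2 ih.1 f hf⟩
  | stabilizer H X A S _ ih =>
    obtain ⟨⟨r, hr⟩, h2⟩ := ih
    exact ⟨⟨_, restrict hr (A.fixer S)⟩, fixer_allConrad h2 A S⟩
  | union H ι T hdir hT hH _ ih =>
    exact ⟨hH, union_allConrad T hdir hT fun i => (ih i).2⟩

/-! ### Centralizers -/

lemma reach_centralizer {G : Type u} [Group G] {lt : G → G → Prop} (h : IsOrder lt)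
    (H : Subgroup G) (hH : Reach G H) (S : Set G) :
    Reach G (H ⊓ Subgroup.centralizer S : Subgroup G) := by
  letI := lo h.toIsRightOrder
  haveI := mulLeftMono h
  haveI := mulRightMono h
  let A : OrderAction H G :=
    { act := fun x g => cj x (g : G)
      act_one := fun x => cj_one x
      act_mul := fun x g k => cj_mul x (g : G) (k : G)
      act_lt := fun x y g hxy => cj_lt hxy (g : G) }
  have h1 : Reach G (A.fixer S) := Reach.stabilizer H G A S hH
  have hfix : ∀ k : H, k ∈ A.fixer S ↔ (k : G) ∈ Subgroup.centralizer S := by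
    intro k
    have h0 : k ∈ A.fixer S ↔ ∀ s ∈ S, cj s (k : G) = s := Iff.rfl
    rw [h0, Subgroup.mem_centralizer_iff]
    refine forall₂_congr fun s _ => ?_
    simp only [cj]
    constructor
    · intro h1
      have h2 : s * (k : G) = k * ((k : G)⁻¹ * s * k) := by group
      rw [h2, h1]
    · intro h1
      rw [mul_assoc, h1]
      group
  let φ : A.fixer S →* (H ⊓ Subgroup.centralizer S : Subgroup G) :=
    { toFun := fun k => ⟨((k : H) : G), (k : H).2, (hfix _).1 k.2⟩
      map_one' := rfl
      map_mul' := fun _ _ => rfl }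
  have hφ : Function.Surjective φ := by
    rintro ⟨x, hx1, hx2⟩
    exact ⟨⟨⟨x, hx1⟩, (hfix _).2 hx2⟩, rfl⟩
  exact Reach.image _ _ φ hφ ⟨_, restrict h.toIsRightOrder _⟩ h1

/-! ### Relatively convex subgroups -/

/-- the lower set `L` moved by `g` -/
def moveLower {G : Type u} [Group G] {r : G → G → Prop} (hr : IsRightOrder r)
    (L : @LowerSet G (lo hr).toLE) (g : G) : @LowerSet G (lo hr).toLE :=
  letI := lo hr
  { carrier := {x | x * g⁻¹ ∈ L}
    lower' := by
      intro a b hba ha
      have h1 : b * g⁻¹ ≤ a * g⁻¹ := by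
        intro h2
        apply hba
        have h3 := hr.mul_right _ _ g h2
        rwa [inv_mul_cancel_right, inv_mul_cancel_right] at h3
      exact L.lower h1 ha }

/-- subgroups which are convex for some right order are point stabilizers -/
lemma reach_convex {G : Type u} [Group G] {r : G → G → Prop} (hr : IsRightOrder r)
    (H : Subgroup G) (hH : IsConvex r H) : Reach G H := by
  letI := lo hr
  have hmem : ∀ (L : LowerSet G) (g x : G), x ∈ moveLower hr L g ↔ x * g⁻¹ ∈ L :=
    fun L g x => Iff.rfl
  have hle : ∀ (L M : LowerSet G) (g : G), L ≤ M → moveLower hr L g ≤ moveLower hr M g := by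
    intro L M g h x hx
    exact h hx
  have hone : ∀ L : LowerSet G, moveLower hr L 1 = L := by
    intro L
    ext x
    change x * 1⁻¹ ∈ L ↔ x ∈ L
    rw [inv_one, mul_one]
  have hmul : ∀ (L : LowerSet G) (g h : G),
      moveLower hr L (g * h) = moveLower hr (moveLower hr L g) h := by
    intro L g h
    ext x
    change x * (g * h)⁻¹ ∈ L ↔ x * h⁻¹ * g⁻¹ ∈ L
    rw [mul_inv_rev, mul_assoc]
  let A : OrderAction G (LowerSet G) :=
    { act := moveLower hr
      act_one := hone
      act_mul := hmul
      act_lt := by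
        intro L M g hLM
        rw [lt_iff_le_not_ge] at hLM ⊢
        refine ⟨hle L M g hLM.1, fun h => hLM.2 ?_⟩
        have h1 := hle _ _ g⁻¹ h
        rwa [← hmul, ← hmul, mul_inv_cancel, hone, hone] at h1 }
  let L0 : LowerSet G :=
    { carrier := {x | ∃ h ∈ H, x ≤ h}
      lower' := by
        rintro a b hba ⟨h, hh, hah⟩
        exact ⟨h, hh, hba.trans hah⟩ }
  have hL0 : ∀ x : G, x ∈ L0 ↔ ∃ h ∈ H, x ≤ h := fun x => Iff.rfl
  have hright : ∀ a b c : G, a ≤ b → a * c ≤ b * c := by
    intro a b c hab h1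
    apply hab
    have h2 := hr.mul_right _ _ c⁻¹ h1
    rwa [mul_inv_cancel_right, mul_inv_cancel_right] at h2
  have hfix : ∀ g : G, g ∈ A.fixer {L0} ↔ g ∈ H := by
    intro g
    have h0 : g ∈ A.fixer {L0} ↔ ∀ s ∈ ({L0} : Set (LowerSet G)), moveLower hr s g = s :=
      Iff.rfl
    rw [h0]
    constructor
    · intro h
      have h1 : moveLower hr L0 g = L0 := h L0 rfl
      have h2 : (1 : G) ∈ moveLower hr L0 g := by
        rw [h1]
        exact ⟨1, H.one_mem, le_rfl⟩
      rw [hmem, one_mul] at h2
      obtain ⟨k, hk, hgk⟩ := h2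
      have h3 := hright _ _ g hgk
      rw [inv_mul_cancel] at h3
      have h4 : k * g ∈ moveLower hr L0 g := by
        rw [hmem, mul_inv_cancel_right]
        exact ⟨k, hk, le_rfl⟩
      rw [h1] at h4
      obtain ⟨k', hk', hkk'⟩ := h4
      have h5 : k * g ∈ H := by
        rcases h3.lt_or_eq with h6 | h6
        · rcases hkk'.lt_or_eq with h7 | h7
          · exact hH _ _ _ H.one_mem hk' h6 h7
          · rw [h7]
            exact hk'
        · rw [← h6]
          exact H.one_mem
      have h6 := H.mul_mem (H.inv_mem hk) h5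
      rwa [inv_mul_cancel_left] at h6
    · intro hg s hs
      rw [Set.mem_singleton_iff] at hs
      rw [hs]
      ext x
      change x * g⁻¹ ∈ L0 ↔ x ∈ L0
      rw [hL0, hL0]
      constructor
      · rintro ⟨k, hk, h1⟩
        refine ⟨k * g, H.mul_mem hk hg, ?_⟩
        have h2 := hright _ _ g h1
        rwa [inv_mul_cancel_right] at h2
      · rintro ⟨k, hk, h1⟩
        exact ⟨k * g⁻¹, H.mul_mem hk (H.inv_mem hg), hright _ _ _ h1⟩
  let φ : A.fixer {L0} →* H :=
    { toFun := fun k => ⟨(k : G), (hfix _).1 k.2⟩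
      map_one' := rfl
      map_mul' := fun _ _ => rfl }
  have hφ : Function.Surjective φ := by
    rintro ⟨x, hx⟩
    exact ⟨⟨x, (hfix _).2 hx⟩, rfl⟩
  exact Reach.image _ _ φ hφ ⟨_, restrict hr _⟩ (Reach.stabilizer G _ A {L0} Reach.base)

/-- a central order restricts to a central order -/
lemma exists_central {G : Type u} [Group G] {lt : G → G → Prop} (h : IsOrder lt)
    (hc : IsCentral lt) (H : Subgroup G) : ∃ r : H → H → Prop, IsOrder r ∧ IsCentral r := by
  have h1 : IsOrder (fun a b : H => lt (a : G) (b : G)) :=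
    { toIsRightOrder := restrict h.toIsRightOrder H
      mul_left := fun a b c hab => h.mul_left _ _ _ hab }
  refine ⟨_, h1, isCentral_of_zpow h1 fun f g hg n => ?_⟩
  have h2 := hc.zpow_lt (f : G) (g : G) hg n
  simpa using h2

/-- Let `G` be a group which has a two-sided order and all of whose right orders are Conrad right
orders. Then for every group `H` in `Reach G` all right orders are Conrad right orders and all
two-sided orders are central. The class `Reach G` contains `G`, the centralizer in `G` of every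
subset of `G`, every subgroup of `G` which is convex for some right order on `G`, and with a
subgroup `H` of `G` also `H ∩ C_G(S)` for every subset `S` of `G` and the image of every
homomorphism from `H` to `G`. Moreover every subgroup of `G` has a central order. -/
theorem result (G : Type u) [Group G] (hG : ∃ lt : G → G → Prop, IsOrder lt)
    (hC : AllConrad G) :
    (∀ (H : Type u) [Group H], Reach G H → AllConrad H ∧
      ∀ lt : H → H → Prop, IsOrder lt → IsCentral lt) ∧
    Reach G G ∧
    (∀ S : Set G, Reach G (Subgroup.centralizer S)) ∧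
    (∀ H : Subgroup G, (∃ r : G → G → Prop, IsRightOrder r ∧ IsConvex r H) → Reach G H) ∧
    (∀ H : Subgroup G, Reach G H → ∀ S : Set G,
      Reach G (H ⊓ Subgroup.centralizer S : Subgroup G)) ∧
    (∀ H : Subgroup G, Reach G H → ∀ φ : H →* G, Reach G φ.range) ∧
    (∀ H : Subgroup G, ∃ lt : H → H → Prop, IsOrder lt ∧ IsCentral lt) := by
  obtain ⟨lt, hlt⟩ := hG
  have hRO : ∃ lt : G → G → Prop, IsRightOrder lt := ⟨lt, hlt.toIsRightOrder⟩
  have hcap := reach_centralizer hlt
  refine ⟨?_, Reach.base, ?_, fun H ⟨r, hr, hH⟩ => reach_convex hr H hH, hcap, ?_,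
    fun H => exists_central hlt (isCentral hC hlt) H⟩
  · intro H _ hH
    have h1 := (reach_allConrad hRO hC hH).2
    exact ⟨h1, fun r hr => isCentral h1 hr⟩
  · intro S
    let φ : G →* (⊤ : Subgroup G) :=
      { toFun := fun x => ⟨x, Subgroup.mem_top x⟩
        map_one' := rfl
        map_mul' := fun _ _ => rfl }
    have hφ : Function.Surjective φ := fun x => ⟨x.1, rfl⟩
    have htop : Reach G (⊤ : Subgroup G) :=
      Reach.image G (⊤ : Subgroup G) φ hφ ⟨_, restrict hlt.toIsRightOrder _⟩ Reach.base
    have h1 := hcap ⊤ htop S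
    rwa [top_inf_eq] at h1
  · intro H hH φ
    exact Reach.image H φ.range φ.rangeRestrict φ.rangeRestrict_surjective
      ⟨_, restrict hlt.toIsRightOrder _⟩ hH

end Pool.Agent.Results.MP_b01f87_al.CentralOrders
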