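import Pool.Agent.CRZ.Top
import Pool.Agent.CRO.Class

/-!
# Finitely generated subgroups of groups all of whose right orders are Conrad

Let `G` be an orderable group all of whose right orders are Conrad and `H` any finitely generated
subgroup. Every relatively convex subgroup `R` of `G` which does not contain `H` is killed by a
surjection from `H` onto the integers (on `H`), and so are all centralizers in `G` that do not
contain `H` and, when `H` is not nilpotent, all locally nilpotent and all elementary subgroups.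
-/

set_option autoImplicit false

open scoped commutatorElement

namespace Pool.Agent.Results.MP_b01f87_al.FirstStep

universe u

/-- `lt` is a right order on `G`: a strict total order invariant under right multiplication. -/
structure IsRightOrder {G : Type u} [Group G] (lt : G → G → Prop) : Prop where
  irrefl : ∀ a, ¬ lt a a
  trans : ∀ a b c, lt a b → lt b c → lt a c
  total : ∀ a b, lt a b ∨ a = b ∨ lt b a
  mul_right : ∀ a b c, lt a b → lt (a * c) (b * c)

/-- `G` is orderable: it has a total order invariant under left and right multiplication. -/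
def Orderable (G : Type u) [Group G] : Prop :=
  ∃ lt : G → G → Prop, IsRightOrder lt ∧ ∀ a b c, lt a b → lt (c * a) (c * b)

/-- `lt` has the Conrad property: if `1 < f < g` then `f g ^ m f⁻¹ > g` for some positive `m`. -/
def IsConrad {G : Type u} [Group G] (lt : G → G → Prop) : Prop :=
  ∀ f g, lt 1 f → lt f g → ∃ m : ℕ, 0 < m ∧ lt g (f * g ^ m * f⁻¹)

/-- every right order on `G` is a Conrad right order -/
def AllConrad (G : Type u) [Group G] : Prop :=
  ∀ lt : G → G → Prop, IsRightOrder lt → IsConrad lt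

/-- The smallest class of groups which contains all abelian groups and all torsion groups and is
closed under subgroups, quotients, extensions and directed unions. -/
inductive Elementary : (H : Type u) → [Group H] → Prop
  | abelian (H : Type u) [Group H] (h : ∀ a b : H, a * b = b * a) : Elementary H
  | torsion (H : Type u) [Group H] (h : ∀ a : H, ∃ n : ℕ, 0 < n ∧ a ^ n = 1) : Elementary H
  | subgroup (H K : Type u) [Group H] [Group K] (f : K →* H) (hf : Function.Injective f)
      (h : Elementary H) : Elementary K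
  | quotient (H K : Type u) [Group H] [Group K] (f : H →* K) (hf : Function.Surjective f)
      (h : Elementary H) : Elementary K
  | extension (H : Type u) [Group H] (N : Subgroup H) [N.Normal] (h1 : Elementary N)
      (h2 : Elementary (H ⧸ N)) : Elementary H
  | union (H : Type u) [Group H] (ι : Type u) (S : ι → Subgroup H)
      (hdir : ∀ i j, ∃ k, S i ≤ S k ∧ S j ≤ S k) (hS : ∀ x, ∃ i, x ∈ S i)
      (h : ∀ i, Elementary (S i)) : Elementary H

/-- every finitely generated subgroup of `H` is nilpotent -/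
def LocallyNilpotent (H : Type u) [Group H] : Prop :=
  ∀ K : Subgroup H, K.FG → Group.IsNilpotent K

/-- `R` is convex for `lt` -/
def IsConvex {G : Type u} [Group G] (lt : G → G → Prop) (R : Subgroup G) : Prop :=
  ∀ x ∈ R, ∀ z ∈ R, ∀ y, lt x y → lt y z → y ∈ R

/-! ### Translation to cones -/

lemma Elementary.toEA {H : Type u} [Group H] (h : Elementary H) : CRO.EA H := by
  induction h with
  | abelian H h => exact CRO.EA.abelian H h
  | torsion H h =>
    refine CRO.EA.periodic H fun a => ?_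
    obtain ⟨n, hn, h1⟩ := h a
    exact ⟨n, hn.ne', h1⟩
  | subgroup H K f hf _ ih => exact CRO.EA.subgroup H K f hf ih
  | quotient H K f hf _ ih => exact CRO.EA.quotient H K f hf ih
  | extension H N _ _ ih1 ih2 => exact CRO.EA.extension H N ih1 ih2
  | union H ι S hdir hS _ ih => exact CRO.EA.union H ι S hdir hS ih

lemma rcone_of_order {G : Type u} [Group G] {lt : G → G → Prop} (h : IsRightOrder lt) :
    CRO.RCone (⊥ : Subgroup G) {x | lt 1 x} where
  mul := by
    intro x hx y hy
    have h1 := h.mul_right _ _ y hx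
    rw [one_mul] at h1
    exact h.trans _ _ _ hy h1
  left := by
    intro c hc x hx
    rw [Subgroup.mem_bot.1 hc, one_mul]
    exact hx
  right := by
    intro x hx c hc
    rw [Subgroup.mem_bot.1 hc, mul_one]
    exact hx
  disj := by
    intro x hx hx1
    rw [Subgroup.mem_bot.1 hx1] at hx
    exact h.irrefl _ hx
  total := by
    intro x hx
    rcases h.total 1 x with h1 | h1 | h1
    · exact Or.inl h1
    · exact absurd (Subgroup.mem_bot.2 h1.symm) hx
    · right
      have h2 := h.mul_right _ _ x⁻¹ h1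
      rw [one_mul, mul_inv_cancel] at h2
      exact h2

lemma bo_of_orderable {G : Type u} [Group G] (h : Orderable G) : CRO.BO G := by
  obtain ⟨lt, h1, h2⟩ := h
  have h3 := rcone_of_order h1
  refine ⟨{x | lt 1 x}, h3.mul, ?_, h1.irrefl 1, ?_⟩
  · intro x hx g
    have h4 := h1.mul_right _ _ g (h2 _ _ g⁻¹ hx)
    rw [mul_one, inv_mul_cancel] at h4
    exact h4
  · intro x hx
    exact h3.total x fun h4 => hx (Subgroup.mem_bot.1 h4)

/-- the right order attached to a cone -/
lemma order_of_rcone {G : Type u} [Group G] {P : Set G} (h : CRO.RCone (⊥ : Subgroup G) P) :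
    IsRightOrder (fun a b : G => b * a⁻¹ ∈ P) where
  irrefl := by
    intro a ha
    rw [mul_inv_cancel] at ha
    exact h.one_notMem ha
  trans := by
    intro a b c hab hbc
    have h1 := h.mul _ hbc _ hab
    rwa [mul_assoc, inv_mul_cancel_left] at h1
  total := by
    intro a b
    by_cases hab : a = b
    · exact Or.inr (Or.inl hab)
    · have h1 : b * a⁻¹ ∉ (⊥ : Subgroup G) := by
        rw [Subgroup.mem_bot, mul_inv_eq_one]
        exact fun h => hab h.symm
      rcases h.total _ h1 with h2 | h2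
      · exact Or.inl h2
      · right; right
        rwa [mul_inv_rev, inv_inv] at h2
  mul_right := by
    intro a b c hab
    rwa [mul_inv_rev, mul_assoc, mul_inv_cancel_left]

lemma ac_of_allConrad {G : Type u} [Group G] (h : AllConrad G) : CRO.AC G := by
  intro P hP f g hbad
  obtain ⟨m, hm, h1⟩ := h _ (order_of_rcone hP) f g (by simpa using hbad.pos) hbad.lt
  exact hbad.bad m hm h1

open Pool.Agent.CRZ

lemma exists_surj {H : Type u} [Group H] (hfg : Group.FG H) (N : Subgroup H) (hn : N.Normal)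
    (hNt : N ≠ ⊤) (hc : ∀ a b : H, a * b * (b * a)⁻¹ ∈ N)
    (ht : ∀ (x : H) (k : ℕ), k ≠ 0 → x ^ k ∈ N → x ∈ N) :
    ∃ φ : H →* Multiplicative ℤ, Function.Surjective φ ∧ ∀ x ∈ N, φ x = 1 := by
  have hmk : ∀ x : H, (QuotientGroup.mk' N x = 1) ↔ x ∈ N := fun x =>
    QuotientGroup.eq_one_iff x
  have hcomm : ∀ p q : H ⧸ N, p * q = q * p := by
    intro p q
    obtain ⟨a, rfl⟩ := QuotientGroup.mk'_surjective N p
    obtain ⟨b, rfl⟩ := QuotientGroup.mk'_surjective N q
    have h := (hmk _).2 (hc a b)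
    rw [map_mul, map_inv, map_mul, map_mul, mul_inv_eq_one] at h
    exact h
  let _ : CommGroup (H ⧸ N) := { (inferInstance : Group (H ⧸ N)) with mul_comm := hcomm }
  have hfgQ : Group.FG (H ⧸ N) := QuotientGroup.fg N
  have hfin : Module.Finite ℤ (Additive (H ⧸ N)) :=
    Module.Finite.iff_addGroup_fg.2 (GroupFG.iff_add_fg.1 hfgQ)
  have htf0 : IsAddTorsionFree (Additive (H ⧸ N)) := by
    refine ⟨fun n hn x y hxy => ?_⟩
    obtain ⟨a, ha⟩ := QuotientGroup.mk'_surjective N (Additive.toMul x)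
    obtain ⟨b, hb⟩ := QuotientGroup.mk'_surjective N (Additive.toMul y)
    have h1 : (QuotientGroup.mk' N a) ^ n = (QuotientGroup.mk' N b) ^ n := by
      rw [ha, hb]
      exact hxy
    have h2 : (a * b⁻¹) ^ n ∈ N := by
      rw [← hmk, map_pow, map_mul, map_inv, mul_pow, inv_pow, h1, mul_inv_cancel]
    have h3 := (hmk _).2 (ht _ n hn h2)
    rw [map_mul, map_inv, mul_inv_eq_one, ha, hb] at h3
    exact h3
  have htf : Module.IsTorsionFree ℤ (Additive (H ⧸ N)) := inferInstance
  have hfree : Module.Free ℤ (Additive (H ⧸ N)) := inferInstance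
  let b := Module.Free.chooseBasis ℤ (Additive (H ⧸ N))
  have hne : Nonempty (Module.Free.ChooseBasisIndex ℤ (Additive (H ⧸ N))) := by
    by_contra hcon
    rw [not_nonempty_iff] at hcon
    obtain ⟨z, -, hz⟩ := SetLike.exists_of_lt (lt_top_iff_ne_top.2 hNt)
    have h1 : (Additive.ofMul (QuotientGroup.mk' N z) : Additive (H ⧸ N)) = 0 := by
      refine b.ext_elem fun i => ?_
      exact (hcon.false i).elim
    exact hz ((hmk z).1 h1)
  obtain ⟨i⟩ := hne
  refine ⟨{ toFun := fun h => Multiplicative.ofAdd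
              (b.coord i (Additive.ofMul (QuotientGroup.mk' N h)))
            map_one' := by simp
            map_mul' := fun x y => by simp [ofAdd_add] }, ?_, ?_⟩
  · intro n
    obtain ⟨x, hx⟩ := QuotientGroup.mk'_surjective N
      (Additive.toMul ((Multiplicative.toAdd n) • b i))
    refine ⟨x, ?_⟩
    change Multiplicative.ofAdd (b.coord i (Additive.ofMul (QuotientGroup.mk' N x))) = n
    rw [hx]
    simp
  · intro x hx
    change Multiplicative.ofAdd (b.coord i (Additive.ofMul (QuotientGroup.mk' N x))) = 1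
    rw [(hmk x).2 hx]
    simp

lemma nav {G : Type u} [Group G] (hA : CRO.AC G) {P : Set G}
    (hP : CRO.RCone (⊥ : Subgroup G) P) {f g : G} (hf : f ∈ P) (hg : g ∈ P) :
    g ^ 2 * f * g⁻¹ ∈ P := by
  have hone : (1 : G) ∉ P := hP.one_notMem
  have htot : ∀ x : G, x ≠ 1 → x ∈ P ∨ x⁻¹ ∈ P := fun x hx =>
    hP.total x fun h => hx (Subgroup.mem_bot.1 h)
  by_contra hcon
  have hne : g ^ 2 * f * g⁻¹ ≠ 1 := by
    intro h
    have h1 : g * f = 1 := by
      have e : g * f = g⁻¹ * (g ^ 2 * f * g⁻¹) * g := by group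
      rw [e, h]; group
    exact hone (h1 ▸ hP.mul _ hg _ hf)
  -- `g ^ 2 * f < g`
  have h0 : g * (g ^ 2 * f)⁻¹ ∈ P := by
    rcases htot _ hne with h | h
    · exact absurd h hcon
    · have e : g * (g ^ 2 * f)⁻¹ = (g ^ 2 * f * g⁻¹)⁻¹ := by group
      rwa [e]
  -- `(g * f) ^ m < g`
  have hpow : ∀ m : ℕ, g * ((g * f) ^ (m + 1))⁻¹ ∈ P := by
    intro m
    induction m with
    | zero =>
      have h1 := hP.mul _ h0 _ hg
      have e : g * ((g * f) ^ (0 + 1))⁻¹ = g * (g ^ 2 * f)⁻¹ * g := by group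
      rwa [e]
    | succ m ih =>
      have h1 := hP.mul _ h0 _ ih
      have e : g * ((g * f) ^ (m + 1 + 1))⁻¹ =
          g * (g ^ 2 * f)⁻¹ * (g * ((g * f) ^ (m + 1))⁻¹) := by
        rw [pow_succ]; group
      rwa [e]
  -- the conjugated order
  have hP' : CRO.RCone (⊥ : Subgroup G) {x | g⁻¹ * x * g ∈ P} := by
    refine ⟨?_, ?_, ?_, ?_, ?_⟩
    · intro x hx y hy
      have h1 := hP.mul _ hx _ hy
      have e : g⁻¹ * x * g * (g⁻¹ * y * g) = g⁻¹ * (x * y) * g := by group
      rw [e] at h1
      exact h1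
    · intro c hc x hx
      rw [Subgroup.mem_bot.1 hc, one_mul]
      exact hx
    · intro x hx c hc
      rw [Subgroup.mem_bot.1 hc, mul_one]
      exact hx
    · intro x hx hx1
      rw [Subgroup.mem_bot.1 hx1] at hx
      have hx' : g⁻¹ * 1 * g ∈ P := hx
      rw [mul_one, inv_mul_cancel] at hx'
      exact hone hx'
    · intro x hx
      have h1 : g⁻¹ * x * g ≠ 1 := by
        intro h
        apply hx
        have e : x = g * (g⁻¹ * x * g) * g⁻¹ := by group
        rw [Subgroup.mem_bot, e, h]; group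
      rcases htot _ h1 with h2 | h2
      · exact Or.inl h2
      · right
        have e : (g⁻¹ * x * g)⁻¹ = g⁻¹ * x⁻¹ * g := by group
        rw [e] at h2
        exact h2
  refine hA _ hP' g (g * f) (CRO.Bad.mk' hP' ?_ ?_ ?_)
  · change g⁻¹ * g * g ∈ P
    rw [inv_mul_cancel, one_mul]
    exact hg
  · change g⁻¹ * (g * f * g⁻¹) * g ∈ P
    have e : g⁻¹ * (g * f * g⁻¹) * g = f := by group
    rwa [e]
  · intro m hm
    obtain ⟨k, rfl⟩ := Nat.exists_eq_succ_of_ne_zero hm.ne'
    change g⁻¹ * (g * f * g * (g * (g * f) ^ (k + 1))⁻¹) * g ∈ P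
    have e : g⁻¹ * (g * f * g * (g * (g * f) ^ (k + 1))⁻¹) * g =
        f * (g * ((g * f) ^ (k + 1))⁻¹) := by group
    rw [e]
    exact hP.mul _ hf _ (hpow k)

theorem main {G : Type u} [Group G] (hB : CRO.BO G) (hA : CRO.AC G) {R : Subgroup G}
    (hR : CRO.RC R) (H : Subgroup G) (hfg : H.FG) (hn : ¬ H ≤ R) :
    ∃ φ : H →* Multiplicative ℤ, Function.Surjective φ ∧ ∀ x : H, (x : G) ∈ R → φ x = 1 := by
  obtain ⟨P1, hP1⟩ := hR
  obtain ⟨P0, hP0⟩ := hB.rc_bot
  set P : Set G := P1 ∪ {x | x ∈ R ∧ x ∈ P0} with hPdef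
  have hP : CRO.RCone (⊥ : Subgroup G) P := hP1.combine' hP0
  have hmem1 : ∀ x ∈ P, x ∉ R → x ∈ P1 := by
    rintro x (hx | hx) hxR
    · exact hx
    · exact absurd hx.1 hxR
  let _ : LinearOrder H := ordOf {x : H | (x : G) ∈ P}
    (fun x hx y hy => hP.mul _ hx _ hy) hP.one_notMem
    (fun x hx => hP.total x fun h => hx (Subtype.ext (Subgroup.mem_bot.1 h)))
  have hlt : ∀ a b : H, a < b ↔ ((b : G) * (a : G)⁻¹) ∈ P := fun _ _ => Iff.rfl
  have hr : ∀ a b c : H, a < b → a * c < b * c := by
    intro a b c h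
    rw [hlt] at h ⊢
    have e : ((b * c : H) : G) * ((a * c : H) : G)⁻¹ = (b : G) * (a : G)⁻¹ := by
      push_cast; group
    rwa [e]
  have hpos : ∀ a : H, 1 < a ↔ (a : G) ∈ P := by
    intro a
    rw [hlt]
    simp
  have hN : ∀ f g : H, 1 < f → 1 < g → g < g ^ 2 * f := by
    intro f g h1 h2
    rw [hlt]
    have := nav hA hP ((hpos f).1 h1) ((hpos g).1 h2)
    push_cast
    exact this
  have hCv : Cv (R.subgroupOf H) := by
    intro x hx y h1 h2
    rw [Subgroup.mem_subgroupOf] at hx ⊢
    by_contra hy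
    have hy1 : (y : G) ∈ P1 := by
      rcases h1.eq_or_lt with h | h
      · exact absurd (h ▸ R.one_mem : ((y : H) : G) ∈ R) hy
      · exact hmem1 _ ((hpos y).1 h) hy
    rcases h2.eq_or_lt with h | h
    · exact hy (h ▸ hx)
    · rw [hlt] at h
      have h3 : (x : G) * (y : G)⁻¹ ∉ R := by
        intro h4
        apply hy
        have h5 := R.mul_mem (R.inv_mem hx) h4
        rw [inv_mul_cancel_left] at h5
        simpa using R.inv_mem h5
      have h4 := hP1.left _ (R.inv_mem hx) _ (hmem1 _ h h3)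
      rw [inv_mul_cancel_left] at h4
      exact hP1.inv_notMem hy1 h4
  have hMt : R.subgroupOf H ≠ ⊤ := by
    intro h
    exact hn (Subgroup.subgroupOf_eq_top.1 h)
  have hfgH : Group.FG H := (Group.fg_iff_subgroup_fg H).2 hfg
  obtain ⟨N, hNn, hMN, hNt, hc, ht⟩ := exists_top hr hN hfgH hCv hMt
  obtain ⟨φ, h1, h2⟩ := exists_surj hfgH N hNn hNt hc ht
  exact ⟨φ, h1, fun x hx => h2 x (hMN (Subgroup.mem_subgroupOf.2 hx))⟩

lemma rc_of_convex {G : Type u} [Group G] {lt : G → G → Prop} (h : IsRightOrder lt)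
    {R : Subgroup G} (hR : IsConvex lt R) : CRO.RC R := by
  have key : ∀ x, lt 1 x → x ∉ R → ∀ c ∈ R, lt c x ∧ lt x⁻¹ c := by
    intro x hx hxR c hc
    have hx' : x⁻¹ ∉ R := fun h1 => hxR (by simpa using R.inv_mem h1)
    have hinv : lt x⁻¹ 1 := by
      have := h.mul_right _ _ x⁻¹ hx
      rwa [one_mul, mul_inv_cancel] at this
    constructor
    · rcases h.total c x with h1 | h1 | h1
      · exact h1
      · exact absurd (h1 ▸ hc) hxR
      · exact absurd (hR 1 R.one_mem c hc x hx h1) hxR
    · rcases h.total x⁻¹ c with h1 | h1 | h1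
      · exact h1
      · exact absurd (h1 ▸ hc) hx'
      · exact absurd (hR c hc 1 R.one_mem x⁻¹ h1 hinv) hx'
  refine ⟨{x | lt 1 x ∧ x ∉ R}, ?_, ?_, ?_, ?_, ?_⟩
  · rintro x ⟨hx, hxR⟩ y ⟨hy, hyR⟩
    have h1 := h.mul_right _ _ y hx
    rw [one_mul] at h1
    refine ⟨h.trans _ _ _ hy h1, fun h2 => hyR ?_⟩
    exact hR 1 R.one_mem _ h2 y hy h1
  · rintro c hc x ⟨hx, hxR⟩
    refine ⟨?_, fun h2 => hxR ?_⟩
    · have h1 := h.mul_right _ _ x (key x hx hxR c hc).2
      rwa [inv_mul_cancel] at h1
    · simpa using R.mul_mem (R.inv_mem hc) h2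
  · rintro x ⟨hx, hxR⟩ c hc
    refine ⟨?_, fun h2 => hxR ?_⟩
    · have h1 := h.mul_right _ _ c (key x hx hxR c⁻¹ (R.inv_mem hc)).1
      rwa [inv_mul_cancel] at h1
    · simpa using R.mul_mem h2 (R.inv_mem hc)
  · rintro x ⟨-, hxR⟩
    exact hxR
  · intro x hxR
    rcases h.total 1 x with h1 | h1 | h1
    · exact Or.inl ⟨h1, hxR⟩
    · exact absurd (h1 ▸ R.one_mem) hxR
    · right
      refine ⟨?_, fun h2 => hxR (by simpa using R.inv_mem h2)⟩
      have := h.mul_right _ _ x⁻¹ h1
      rwa [one_mul, mul_inv_cancel] at this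

lemma ln_of_locallyNilpotent {G : Type u} [Group G] {S : Subgroup G}
    (h : LocallyNilpotent S) : CRO.LN S := by
  intro X hX hXS
  have hfin : ((Subtype.val : S → G) ⁻¹' X).Finite := hX.preimage Subtype.val_injective.injOn
  set K : Subgroup S := Subgroup.closure ((Subtype.val : S → G) ⁻¹' X) with hK
  have hKfg : K.FG := ⟨hfin.toFinset, by rw [Set.Finite.coe_toFinset]⟩
  obtain ⟨n, hn⟩ := Subgroup.nilpotent_iff_lowerCentralSeries.1 (h K hKfg)
  refine ⟨n, ?_⟩
  rw [← CRO.gam_eq] at hn
  have h1 : CRO.gam K n = ⊥ := by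
    have h2 : (⊤ : Subgroup K).map K.subtype = K := by
      rw [← MonoidHom.range_eq_map, Subgroup.range_subtype]
    rw [← h2, ← CRO.map_gam, hn, Subgroup.map_bot]
  have h3 : K.map S.subtype = Subgroup.closure X := by
    rw [hK, MonoidHom.map_closure]
    congr 1
    ext x
    constructor
    · rintro ⟨y, hy, rfl⟩
      exact hy
    · intro hx
      exact ⟨⟨x, hXS hx⟩, hx, rfl⟩
  rw [← h3, ← CRO.map_gam, h1, Subgroup.map_bot]

lemma exists_two {H : Type u} [Group H]
    (key : ∀ y : H, (∃ x, x * y ≠ y * x) → ∃ φ : H →* Multiplicative ℤ,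
      Function.Surjective φ ∧ ∀ x, x * y = y * x → φ x = 1)
    (h : ∃ a b : H, a * b ≠ b * a) :
    ∃ θ : H →* Multiplicative (ℤ × ℤ), Function.Surjective θ := by
  obtain ⟨a, b, hab⟩ := h
  obtain ⟨φ, hφ, hφ1⟩ := key b ⟨a, hab⟩
  obtain ⟨y, hy⟩ := hφ (Multiplicative.ofAdd 1)
  have hyb : b * y ≠ y * b := by
    intro h1
    have h2 := hφ1 y h1.symm
    rw [hy] at h2
    exact one_ne_zero (Multiplicative.ofAdd.injective h2 : (1 : ℤ) = 0)
  obtain ⟨ψ, hψ, hψ1⟩ := key y ⟨b, hyb⟩
  have hψy : ψ y = 1 := hψ1 y rfl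
  obtain ⟨z, hz⟩ := hψ (Multiplicative.ofAdd 1)
  refine ⟨{ toFun := fun h => Multiplicative.ofAdd
              (Multiplicative.toAdd (φ h), Multiplicative.toAdd (ψ h))
            map_one' := by simp
            map_mul' := fun x y => by simp [← ofAdd_add] }, ?_⟩
  intro t
  obtain ⟨p, q⟩ := t
  set s : ℤ := Multiplicative.toAdd (φ z) with hs
  refine ⟨y ^ (p - q * s) * z ^ q, ?_⟩
  have h1 : Multiplicative.toAdd (φ (y ^ (p - q * s) * z ^ q)) = p := by
    rw [map_mul, map_zpow, map_zpow, hy, toAdd_mul, toAdd_zpow, toAdd_zpow, toAdd_ofAdd, ← hs]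
    simp
  have h2 : Multiplicative.toAdd (ψ (y ^ (p - q * s) * z ^ q)) = q := by
    rw [map_mul, map_zpow, map_zpow, hψy, hz, one_zpow, one_mul, toAdd_zpow, toAdd_ofAdd]
    simp
  change Multiplicative.ofAdd (Multiplicative.toAdd (φ (y ^ (p - q * s) * z ^ q)),
    Multiplicative.toAdd (ψ (y ^ (p - q * s) * z ^ q))) = _
  rw [h1, h2]
  rfl

/-- Let `G` be an orderable group all of whose right orders are Conrad and `H` any finitely
generated subgroup of `G`. (1) A subgroup `R` of `G` that is convex in some right order and does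
not contain `H` is killed on `H` by a surjection `H → ℤ`. (2) The same holds for the centralizer
of any subset of `G`. (3) If `H` is not abelian, it maps onto `ℤ × ℤ`. (4) If `H` is not
nilpotent, then for every locally nilpotent or elementary subgroup `S` of `G` some surjection
`H → ℤ` kills `S` on `H`. -/
theorem result (G : Type u) [Group G] (hG : Orderable G) (hC : AllConrad G) (H : Subgroup G)
    (hH : H.FG) :
    (∀ (lt : G → G → Prop) (R : Subgroup G), IsRightOrder lt → IsConvex lt R → ¬ H ≤ R →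
      ∃ φ : H →* Multiplicative ℤ, Function.Surjective φ ∧ ∀ x : H, (x : G) ∈ R → φ x = 1) ∧
    (∀ X : Set G, ¬ H ≤ Subgroup.centralizer X →
      ∃ φ : H →* Multiplicative ℤ, Function.Surjective φ ∧
        ∀ x : H, (x : G) ∈ Subgroup.centralizer X → φ x = 1) ∧
    ((∃ a b : H, a * b ≠ b * a) →
      ∃ θ : H →* Multiplicative (ℤ × ℤ), Function.Surjective θ) ∧
    (∀ S : Subgroup G, (LocallyNilpotent S ∨ Elementary S) → ¬ Group.IsNilpotent H →
      ∃ φ : H →* Multiplicative ℤ, Function.Surjective φ ∧ ∀ x : H, (x : G) ∈ S → φ x = 1) := by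
  have hB := bo_of_orderable hG
  have hA := ac_of_allConrad hC
  have cen : ∀ X : Set G, ¬ H ≤ Subgroup.centralizer X →
      ∃ φ : H →* Multiplicative ℤ, Function.Surjective φ ∧
        ∀ x : H, (x : G) ∈ Subgroup.centralizer X → φ x = 1 := fun X hX =>
    main hB hA (hB.RC_centralizer X) H hH hX
  refine ⟨fun lt R hlt hR hn => main hB hA (rc_of_convex hlt hR) H hH hn, cen, ?_, ?_⟩
  · refine exists_two ?_
    rintro y ⟨x, hxy⟩
    obtain ⟨φ, h1, h2⟩ := cen {(y : G)} (by
      intro h3
      have h4 := Subgroup.mem_centralizer_singleton_iff.1 (h3 x.2)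
      exact hxy (Subtype.ext h4))
    refine ⟨φ, h1, fun z hz => h2 z ?_⟩
    rw [Subgroup.mem_centralizer_singleton_iff]
    exact congrArg Subtype.val hz
  · intro S hS hnil
    have hLN : CRO.LN S := by
      rcases hS with h | h
      · exact ln_of_locallyNilpotent h
      · exact CRO.locally_nilpotent_of_EA hB hA S h.toEA
    have hhull := hLN.hull hB hA
    have hnle : ¬ H ≤ CRO.hull S := by
      intro hle
      obtain ⟨X, hX⟩ := hH
      obtain ⟨n, hn⟩ := hhull (X : Set G) X.finite_toSet (by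
        intro x hx
        exact hle (hX ▸ Subgroup.subset_closure hx))
      rw [hX] at hn
      exact hnil (CRO.isNilpotent_of_gam hn)
    obtain ⟨φ, h1, h2⟩ := main hB hA (CRO.RC_hull S) H hH hnle
    exact ⟨φ, h1, fun x hx => h2 x (CRO.le_hull S hx)⟩

end Pool.Agent.Results.MP_b01f87_al.FirstStep
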