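import Pool.Agent.CRO.Class

/-!
# Groups all of whose right orders are Conrad

Let `G` be an orderable group in which every right order is a Conrad right order. If `G` is
soluble, or if `H` is any subgroup of `G` which belongs to the smallest class of groups that
contains the abelian groups and the torsion groups and is closed under subgroups, quotients,
extensions and directed unions (for instance `H` elementary amenable or locally soluble), then `H`
is locally nilpotent and every right order on `H` is a Conrad right order.
-/

open scoped commutatorElement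

namespace Pool.Agent.Results.MP_b01f87_al.SolubleSetting

universe u

/-- `lt` is a right order on `G`: a strict total order invariant under right multiplication. -/
structure IsRightOrder {G : Type u} [Group G] (lt : G → G → Prop) : Prop where
  irrefl : ∀ a, ¬ lt a a
  trans : ∀ a b c, lt a b → lt b c → lt a c
  total : ∀ a b, lt a b ∨ a = b ∨ lt b a
  mul_right : ∀ a b c, lt a b → lt (a * c) (b * c)

/-- `G` is orderable: it has a total order invariant under left and right multiplication. -/
def Orderable (G : Type u) [Group G] : Prop :=
  ∃ lt : G → G → Prop, IsRightOrder lt ∧ ∀ a b c, lt a b → lt (c * a) (c * b)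

/-- `lt` has the Conrad property: if `1 < f < g` then `f g ^ m f⁻¹ > g` for some positive `m`. -/
def IsConrad {G : Type u} [Group G] (lt : G → G → Prop) : Prop :=
  ∀ f g, lt 1 f → lt f g → ∃ m : ℕ, 0 < m ∧ lt g (f * g ^ m * f⁻¹)

/-- every right order on `G` is a Conrad right order -/
def AllConrad (G : Type u) [Group G] : Prop :=
  ∀ lt : G → G → Prop, IsRightOrder lt → IsConrad lt

/-- The smallest class of groups which contains all abelian groups and all torsion groups and is
closed under subgroups, quotients, extensions and directed unions. -/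
inductive Elementary : (H : Type u) → [Group H] → Prop
  | abelian (H : Type u) [Group H] (h : ∀ a b : H, a * b = b * a) : Elementary H
  | torsion (H : Type u) [Group H] (h : ∀ a : H, ∃ n : ℕ, 0 < n ∧ a ^ n = 1) : Elementary H
  | subgroup (H K : Type u) [Group H] [Group K] (f : K →* H) (hf : Function.Injective f)
      (h : Elementary H) : Elementary K
  | quotient (H K : Type u) [Group H] [Group K] (f : H →* K) (hf : Function.Surjective f)
      (h : Elementary H) : Elementary K
  | extension (H : Type u) [Group H] (N : Subgroup H) [N.Normal] (h1 : Elementary N)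
      (h2 : Elementary (H ⧸ N)) : Elementary H
  | union (H : Type u) [Group H] (ι : Type u) (S : ι → Subgroup H)
      (hdir : ∀ i j, ∃ k, S i ≤ S k ∧ S j ≤ S k) (hS : ∀ x, ∃ i, x ∈ S i)
      (h : ∀ i, Elementary (S i)) : Elementary H

/-- every finitely generated subgroup of `H` is nilpotent -/
def LocallyNilpotent (H : Type u) [Group H] : Prop :=
  ∀ K : Subgroup H, K.FG → Group.IsNilpotent K

/-! ### Translation to cones -/

lemma Elementary.toEA {H : Type u} [Group H] (h : Elementary H) : CRO.EA H := by
  induction h with
  | abelian H h => exact CRO.EA.abelian H h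
  | torsion H h =>
    refine CRO.EA.periodic H fun a => ?_
    obtain ⟨n, hn, h1⟩ := h a
    exact ⟨n, hn.ne', h1⟩
  | subgroup H K f hf _ ih => exact CRO.EA.subgroup H K f hf ih
  | quotient H K f hf _ ih => exact CRO.EA.quotient H K f hf ih
  | extension H N _ _ ih1 ih2 => exact CRO.EA.extension H N ih1 ih2
  | union H ι S hdir hS _ ih => exact CRO.EA.union H ι S hdir hS ih

/-- soluble groups are in the class -/
lemma elementary_of_derivedSeries : ∀ (n : ℕ) (H : Type u) [Group H],
    derivedSeries H n = ⊥ → Elementary H := by
  intro n
  induction n with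
  | zero =>
    intro H _ h
    refine Elementary.abelian H fun a b => ?_
    have h1 : ∀ x : H, x = 1 := by
      intro x
      have h2 : x ∈ derivedSeries H 0 := Subgroup.mem_top x
      rw [h] at h2
      exact Subgroup.mem_bot.1 h2
    rw [h1 a, h1 b]
  | succ n ih =>
    intro H _ h
    refine Elementary.extension H (derivedSeries H n) ?_ ?_
    · refine Elementary.abelian _ ?_
      rintro ⟨a, ha⟩ ⟨b, hb⟩
      apply Subtype.ext
      have h1 : ⁅a, b⁆ ∈ derivedSeries H (n + 1) := Subgroup.commutator_mem_commutator ha hb
      rw [h, Subgroup.mem_bot, commutatorElement_eq_one_iff_commute] at h1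
      exact h1
    · refine ih _ ?_
      rw [← map_derivedSeries_eq (QuotientGroup.mk'_surjective _), eq_bot_iff,
        Subgroup.map_le_iff_le_comap]
      intro x hx
      rw [Subgroup.mem_comap, Subgroup.mem_bot, ← MonoidHom.mem_ker, QuotientGroup.ker_mk']
      exact hx

lemma elementary_of_isSolvable (H : Type u) [Group H] (h : Group.IsSolvable H) :
    Elementary H := by
  obtain ⟨n, hn⟩ := h
  exact elementary_of_derivedSeries n H hn

lemma rcone_of_order {G : Type u} [Group G] {lt : G → G → Prop} (h : IsRightOrder lt) :
    CRO.RCone (⊥ : Subgroup G) {x | lt 1 x} where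
  mul := by
    intro x hx y hy
    have h1 := h.mul_right _ _ y hx
    rw [one_mul] at h1
    exact h.trans _ _ _ hy h1
  left := by
    intro c hc x hx
    rw [Subgroup.mem_bot.1 hc, one_mul]
    exact hx
  right := by
    intro x hx c hc
    rw [Subgroup.mem_bot.1 hc, mul_one]
    exact hx
  disj := by
    intro x hx hx1
    rw [Subgroup.mem_bot.1 hx1] at hx
    exact h.irrefl _ hx
  total := by
    intro x hx
    rcases h.total 1 x with h1 | h1 | h1
    · exact Or.inl h1
    · exact absurd (Subgroup.mem_bot.2 h1.symm) hx
    · right
      have h2 := h.mul_right _ _ x⁻¹ h1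
      rw [one_mul, mul_inv_cancel] at h2
      exact h2

lemma bo_of_orderable {G : Type u} [Group G] (h : Orderable G) : CRO.BO G := by
  obtain ⟨lt, h1, h2⟩ := h
  have h3 := rcone_of_order h1
  refine ⟨{x | lt 1 x}, h3.mul, ?_, h1.irrefl 1, ?_⟩
  · intro x hx g
    have h4 := h1.mul_right _ _ g (h2 _ _ g⁻¹ hx)
    rw [mul_one, inv_mul_cancel] at h4
    exact h4
  · intro x hx
    exact h3.total x fun h4 => hx (Subgroup.mem_bot.1 h4)

/-- the right order attached to a cone -/
lemma order_of_rcone {G : Type u} [Group G] {P : Set G} (h : CRO.RCone (⊥ : Subgroup G) P) :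
    IsRightOrder (fun a b : G => b * a⁻¹ ∈ P) where
  irrefl := by
    intro a ha
    rw [mul_inv_cancel] at ha
    exact h.one_notMem ha
  trans := by
    intro a b c hab hbc
    have h1 := h.mul _ hbc _ hab
    rwa [mul_assoc, inv_mul_cancel_left] at h1
  total := by
    intro a b
    by_cases hab : a = b
    · exact Or.inr (Or.inl hab)
    · have h1 : b * a⁻¹ ∉ (⊥ : Subgroup G) := by
        rw [Subgroup.mem_bot, mul_inv_eq_one]
        exact fun h => hab h.symm
      rcases h.total _ h1 with h2 | h2
      · exact Or.inl h2
      · right; right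
        rwa [mul_inv_rev, inv_inv] at h2
  mul_right := by
    intro a b c hab
    rwa [mul_inv_rev, mul_assoc, mul_inv_cancel_left]

lemma ac_of_allConrad {G : Type u} [Group G] (h : AllConrad G) : CRO.AC G := by
  intro P hP f g hbad
  obtain ⟨m, hm, h1⟩ := h _ (order_of_rcone hP) f g (by simpa using hbad.pos) hbad.lt
  exact hbad.bad m hm h1

lemma allConrad_of_ac {G : Type u} [Group G] (h : CRO.AC G) : AllConrad G := by
  intro lt hlt f g hf hg
  by_contra hcon
  push Not at hcon
  refine h _ (rcone_of_order hlt) f g ⟨hf, ?_, ?_⟩
  · have h1 := hlt.mul_right _ _ f⁻¹ hg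
    rw [mul_inv_cancel] at h1
    exact h1
  · intro m hm h1
    have h2 := hlt.mul_right _ _ g h1
    rw [one_mul, inv_mul_cancel_right] at h2
    exact hcon m hm h2

/-- Let `G` be an orderable group all of whose right orders are Conrad and `H` a subgroup of `G`.
If `G` is soluble, or if `H` is in the class `Elementary`, then `H` is locally nilpotent and every
right order on `H` is a Conrad right order. -/
theorem result (G : Type u) [Group G] (hG : Orderable G) (hC : AllConrad G) (H : Subgroup G)
    (hH : Group.IsSolvable G ∨ Elementary H) : LocallyNilpotent H ∧ AllConrad H := by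
  have hE : Elementary H := by
    rcases hH with h | h
    · exact elementary_of_isSolvable H inferInstance
    · exact h
  have hLN : CRO.LN H :=
    CRO.locally_nilpotent_of_EA (bo_of_orderable hG) (ac_of_allConrad hC) H hE.toEA
  refine ⟨?_, allConrad_of_ac (CRO.AC_of_LN hLN)⟩
  rintro K ⟨X, rfl⟩
  obtain ⟨n, hn⟩ := hLN ((↑) '' (X : Set H)) (X.finite_toSet.image _) (by
    rintro _ ⟨x, _, rfl⟩
    exact x.2)
  refine CRO.isNilpotent_of_gam (n := n) ?_
  rw [eq_bot_iff]
  intro z hz
  have h1 : H.subtype z ∈ (CRO.gam (Subgroup.closure (X : Set H)) n).map H.subtype :=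
    ⟨z, hz, rfl⟩
  rw [CRO.map_gam, MonoidHom.map_closure] at h1
  have h2 : H.subtype z ∈ (⊥ : Subgroup G) := by
    rw [← hn]
    exact h1
  exact Subgroup.mem_bot.2 (Subtype.ext (Subgroup.mem_bot.1 h2))

end Pool.Agent.Results.MP_b01f87_al.SolubleSetting
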